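import Pool.Agent.Helper663.Sc.Coh
import Pool.Agent.Helper663.Sc.Alt

/-! Complexes of tuples, cones and the comparison of cohomology. -/

set_option autoImplicit false
set_option linter.unusedSectionVars false

open Pool.Agent.Helper663.Sc Module

namespace Pool.Agent.H937Z.Tight

/-- A family of tuples closed under deleting an entry. -/
structure TP (P : Type) where
  R : ∀ n, (Fin (n + 1) → P) → Prop
  face : ∀ n (i : Fin (n + 2)) (c : Fin (n + 2) → P), R (n + 1) c → R n (c ∘ i.succAbove)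

namespace TP

variable {P : Type} (F : Type) [Field F] (Q : TP P)

/-- simplices -/
def S (n : ℕ) : Type := {c : Fin (n + 1) → P // Q.R n c}

/-- faces -/
def fc (n : ℕ) (i : Fin (n + 2)) (c : Q.S (n + 1)) : Q.S n :=
  ⟨c.1 ∘ i.succAbove, Q.face n i c.1 c.2⟩

theorem fc_fc (n : ℕ) (i j : Fin (n + 2)) (c : Q.S (n + 2)) (h : i ≤ j) :
    Q.fc n i (Q.fc (n + 1) j.succ c) = Q.fc n j (Q.fc (n + 1) i.castSucc c) := by
  apply Subtype.ext
  funext x
  simp only [fc, Function.comp_apply]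
  rw [succAbove_comm i j h x]

/-- coboundary -/
abbrev d (n : ℕ) : (Q.S n → F) →ₗ[F] (Q.S (n + 1) → F) := altd F Q.fc n

theorem d_d (n : ℕ) (f : Q.S n → F) : Q.d F (n + 1) (Q.d F n f) = 0 :=
  altd_altd Q.fc (fun n i j σ h => Q.fc_fc n i j σ h) n f

/-- dimension of cocycles -/
noncomputable def z (n : ℕ) : ℕ := finrank F (LinearMap.ker (Q.d F n))

/-- rank of the coboundary -/
noncomputable def rk (n : ℕ) : ℕ := finrank F (LinearMap.range (Q.d F n))

/-- Betti numbers -/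
noncomputable def b (n : ℕ) : ℕ := finrank F (Coh F (fun n => Q.S n → F) (fun n => Q.d F n) n)

theorem rk_add_z (n : ℕ) [Finite (Q.S n)] : Q.rk F n + Q.z F n = Nat.card (Q.S n) := by
  have := Fintype.ofFinite (Q.S n)
  rw [rk, z, LinearMap.finrank_range_add_finrank_ker, Module.finrank_fintype_fun_eq_card,
    Nat.card_eq_fintype_card]

theorem b_add_rk (n : ℕ) [Finite (Q.S (n + 1))] : Q.b F (n + 1) + Q.rk F n = Q.z F (n + 1) := by
  have hle : LinearMap.range (Q.d F n) ≤ LinearMap.ker (Q.d F (n + 1)) := by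
    rintro _ ⟨f, rfl⟩
    exact Q.d_d F n f
  have e := (Submodule.comapSubtypeEquivOfLe hle).finrank_eq
  rw [b, rk, z, ← e]
  exact Submodule.finrank_quotient_add_finrank _

theorem b_succ (n : ℕ) [Finite (Q.S n)] [Finite (Q.S (n + 1))] :
    Q.b F (n + 1) + Nat.card (Q.S n) = Q.z F (n + 1) + Q.z F n := by
  have := Q.rk_add_z F n
  have := Q.b_add_rk F n
  omega

/-- the tuples with entries in `W` form an acyclic complex -/
def Acyc (W : P → Prop) : Prop :=
  (∃ s : Q.S 0, ∀ i, W (s.1 i)) ∧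
  (∀ f : Q.S 0 → F, (∀ s : Q.S 1, (∀ i, W (s.1 i)) → Q.d F 0 f s = 0) →
    ∃ a, ∀ s : Q.S 0, (∀ i, W (s.1 i)) → f s = a) ∧
  ∀ n (f : Q.S (n + 1) → F), (∀ s : Q.S (n + 2), (∀ i, W (s.1 i)) → Q.d F (n + 1) f s = 0) →
    ∃ g : Q.S n → F, ∀ s : Q.S (n + 1), (∀ i, W (s.1 i)) → Q.d F n g s = f s

theorem cons_succAbove_zero {n : ℕ} (v : P) (c : Fin (n + 1) → P) :
    (Fin.cons v c : Fin (n + 2) → P) ∘ (0 : Fin (n + 2)).succAbove = c := by
  funext x; simp

theorem cons_succAbove_succ {n : ℕ} (v : P) (c : Fin (n + 2) → P) (i : Fin (n + 2)) :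
    (Fin.cons v c : Fin (n + 3) → P) ∘ (i.succ).succAbove = Fin.cons v (c ∘ i.succAbove) := by
  funext x
  refine Fin.cases ?_ (fun x => ?_) x
  · simp
  · simp

theorem acyc_of_cone (W D : P → Prop) (v : P) (hv : W v) (h0 : Q.R 0 fun _ => v)
    (H1 : ∀ n c, Q.R n c → (∀ i, W (c i)) → ¬ D (c 0) → Q.R (n + 1) (Fin.cons v c))
    (H2 : ∀ n (c : Fin (n + 2) → P), Q.R (n + 1) c → (∀ i, W (c i)) → ¬ D (c 1))
    (H3 : ∀ x, D x → x = v) : Q.Acyc F W := by
  classical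
  have hW : ∀ n (c : Fin (n + 1) → P), (∀ i, W (c i)) →
      ∀ i, W ((Fin.cons v c : Fin (n + 2) → P) i) := by
    intro n c hc i
    refine Fin.cases ?_ (fun i => ?_) i
    · simpa using hv
    · simpa using hc i
  refine ⟨⟨⟨fun _ => v, h0⟩, fun _ => hv⟩, ?_, ?_⟩
  · intro f hf
    refine ⟨f ⟨fun _ => v, h0⟩, fun s hs => ?_⟩
    by_cases hD : D (s.1 0)
    · congr 1
      apply Subtype.ext
      funext i
      rw [Subsingleton.elim (α := Fin 1) i 0]
      exact H3 _ hD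
    · have h2 := hf ⟨Fin.cons v s.1, H1 0 s.1 s.2 hs hD⟩ (hW 0 s.1 hs)
      rw [altd_apply, Fin.sum_univ_two] at h2
      simp only [Fin.val_zero, pow_zero, one_mul, Fin.val_one, pow_one, neg_mul] at h2
      rw [← sub_eq_add_neg, sub_eq_zero] at h2
      have e0 : Q.fc 0 0 ⟨Fin.cons v s.1, H1 0 s.1 s.2 hs hD⟩ = s :=
        Subtype.ext (cons_succAbove_zero v s.1)
      rw [e0] at h2
      rw [h2]
      congr 1
      apply Subtype.ext
      funext i
      rw [Subsingleton.elim (α := Fin 1) i 0]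
      simp [fc]
  · intro n f hf
    let g : Q.S n → F := fun c =>
      if h : (∀ i, W (c.1 i)) ∧ ¬ D (c.1 0) then f ⟨Fin.cons v c.1, H1 n c.1 c.2 h.1 h.2⟩ else 0
    have gpos : ∀ (c : Q.S n) (h1 : ∀ i, W (c.1 i)) (h2 : ¬ D (c.1 0)),
        g c = f ⟨Fin.cons v c.1, H1 n c.1 c.2 h1 h2⟩ := fun c h1 h2 => dif_pos ⟨h1, h2⟩
    have gneg : ∀ c : Q.S n, D (c.1 0) → g c = 0 := fun c h => dif_neg fun h' => h'.2 h
    refine ⟨g, fun s hs => ?_⟩
    have hs0 : ∀ i : Fin (n + 1), (Q.fc n i.succ s).1 0 = s.1 0 := by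
      intro i; simp [fc]
    have hs1 : (Q.fc n 0 s).1 0 = s.1 1 := by simp [fc]
    have hWf : ∀ j i, W ((Q.fc n j s).1 i) := fun j i => hs _
    have hD1 : ¬ D ((Q.fc n 0 s).1 0) := hs1 ▸ H2 n s.1 s.2 hs
    rw [altd_apply]
    by_cases hD : D (s.1 0)
    · rw [Fin.sum_univ_succ, Finset.sum_eq_zero, gpos _ (hWf 0) hD1]
      · simp only [Fin.val_zero, pow_zero, one_mul, add_zero]
        congr 1
        apply Subtype.ext
        funext x
        refine Fin.cases ?_ (fun x => ?_) x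
        · simpa using (H3 _ hD).symm
        · simp [fc]
      · intro i _
        rw [gneg _ (by rw [hs0]; exact hD), mul_zero]
    · have hD2 : ∀ j, ¬ D ((Q.fc n j s).1 0) := by
        intro j
        refine Fin.cases hD1 (fun j => ?_) j
        rw [hs0]; exact hD
      have h2 := hf ⟨Fin.cons v s.1, H1 _ s.1 s.2 hs hD⟩ (hW _ s.1 hs)
      rw [altd_apply, Fin.sum_univ_succ] at h2
      have e0 : Q.fc (n + 1) 0 ⟨Fin.cons v s.1, H1 _ s.1 s.2 hs hD⟩ = s :=
        Subtype.ext (cons_succAbove_zero v s.1)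
      rw [e0] at h2
      simp only [Fin.val_zero, pow_zero, one_mul] at h2
      rw [eq_neg_of_add_eq_zero_left h2, ← Finset.sum_neg_distrib]
      refine Finset.sum_congr rfl fun j _ => ?_
      rw [gpos _ (hWf j) (hD2 j)]
      have e1 : Q.fc (n + 1) j.succ ⟨Fin.cons v s.1, H1 _ s.1 s.2 hs hD⟩ =
          ⟨Fin.cons v (Q.fc n j s).1, H1 n _ (Q.fc n j s).2 (hWf j) (hD2 j)⟩ :=
        Subtype.ext (cons_succAbove_succ v s.1 j)
      rw [e1, Fin.val_succ, pow_succ]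
      ring

end TP

section Cmp
variable {P1 P2 : Type} (F : Type) [Field F] (Q1 : TP P1) (Q2 : TP P2) (r : P1 → P2 → Prop)

/-- related pairs of simplices -/
def ZP (p q : ℕ) : Type := {x : Q1.S p × Q2.S q // ∀ i j, r (x.1.1 i) (x.2.1 j)}

/-- first face map -/
def zf1 (q p : ℕ) (i : Fin (p + 2)) (z : ZP Q1 Q2 r (p + 1) q) : ZP Q1 Q2 r p q :=
  ⟨(Q1.fc p i z.1.1, z.1.2), fun _ j => z.2 _ j⟩

/-- second face map -/
def zf2 (p q : ℕ) (j : Fin (q + 2)) (z : ZP Q1 Q2 r p (q + 1)) : ZP Q1 Q2 r p q :=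
  ⟨(z.1.1, Q2.fc q j z.1.2), fun i _ => z.2 i _⟩

open Classical in
/-- extension by zero in the first variable -/
noncomputable def ex1 {p q : ℕ} (x : ZP Q1 Q2 r p q → F) (s : Q2.S q) : Q1.S p → F :=
  fun c => if h : ∀ i j, r (c.1 i) (s.1 j) then x ⟨(c, s), h⟩ else 0

open Classical in
/-- extension by zero in the second variable -/
noncomputable def ex2 {p q : ℕ} (x : ZP Q1 Q2 r p q → F) (c : Q1.S p) : Q2.S q → F :=
  fun s => if h : ∀ i j, r (c.1 i) (s.1 j) then x ⟨(c, s), h⟩ else 0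

theorem ex1_apply {p q : ℕ} (x : ZP Q1 Q2 r p q → F) (z : ZP Q1 Q2 r p q) :
    ex1 F Q1 Q2 r x z.1.2 z.1.1 = x z := dif_pos z.2

theorem ex2_apply {p q : ℕ} (x : ZP Q1 Q2 r p q → F) (z : ZP Q1 Q2 r p q) :
    ex2 F Q1 Q2 r x z.1.1 z.1.2 = x z := dif_pos z.2

theorem d_ex1 {p q : ℕ} (x : ZP Q1 Q2 r p q → F) (z : ZP Q1 Q2 r (p + 1) q) :
    Q1.d F p (ex1 F Q1 Q2 r x z.1.2) z.1.1 =
      altd F (S := fun p => ZP Q1 Q2 r p q) (fun p => zf1 Q1 Q2 r q p) p x z := by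
  rw [altd_apply, altd_apply]
  refine Finset.sum_congr rfl fun i _ => ?_
  congr 1
  exact ex1_apply F Q1 Q2 r x (zf1 Q1 Q2 r q p i z)

theorem d_ex2 {p q : ℕ} (x : ZP Q1 Q2 r p q → F) (z : ZP Q1 Q2 r p (q + 1)) :
    Q2.d F q (ex2 F Q1 Q2 r x z.1.1) z.1.2 =
      altd F (S := fun q => ZP Q1 Q2 r p q) (fun q => zf2 Q1 Q2 r p q) q x z := by
  rw [altd_apply, altd_apply]
  refine Finset.sum_congr rfl fun i _ => ?_
  congr 1
  exact ex2_apply F Q1 Q2 r x (zf2 Q1 Q2 r p q i z)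

theorem b_eq_of_acyc
    (hrow : ∀ q (s : Q2.S q), Q1.Acyc F fun σ => ∀ j, r σ (s.1 j))
    (hcol : ∀ p (c : Q1.S p), Q2.Acyc F fun v => ∀ i, r (c.1 i) v) (n : ℕ) :
    Q2.b F n = Q1.b F n := by
  suffices h : Nonempty (Coh F (fun n => Q2.S n → F) (fun n => Q2.d F n) n ≃ₗ[F]
      Coh F (fun n => Q1.S n → F) (fun n => Q1.d F n) n) by
    obtain ⟨e⟩ := h
    exact e.finrank_eq
  refine double_complex (k := F)
    (fun q => Q2.S q → F) (fun q => Q2.d F q)
    (fun p => Q1.S p → F) (fun p => Q1.d F p)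
    (fun p q => ZP Q1 Q2 r p q → F)
    (fun p q => altd F (S := fun p => ZP Q1 Q2 r p q) (fun p => zf1 Q1 Q2 r q p) p)
    (fun p q => altd F (S := fun q => ZP Q1 Q2 r p q) (fun q => zf2 Q1 Q2 r p q) q)
    (fun q => { toFun := fun f z => f z.1.2
                map_add' := fun _ _ => rfl, map_smul' := fun _ _ => rfl })
    (fun p => { toFun := fun b z => b z.1.1
                map_add' := fun _ _ => rfl, map_smul' := fun _ _ => rfl })
    ?_ ?_ ?_ ?_ ?_ ?_ ?_ ?_ ?_ ?_ ?_ ?_ ?_ n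
  · intro p q f
    apply altd_altd
    intro n i j z hij
    apply Subtype.ext
    apply Prod.ext
    · exact Q1.fc_fc _ _ _ _ hij
    · rfl
  · intro p q f
    apply altd_altd
    intro n i j z hij
    apply Subtype.ext
    apply Prod.ext
    · rfl
    · exact Q2.fc_fc _ _ _ _ hij
  · intro p q f
    funext z
    simp only [altd_apply, Finset.mul_sum]
    rw [Finset.sum_comm]
    refine Finset.sum_congr rfl fun j _ => Finset.sum_congr rfl fun i _ => ?_
    have : zf2 Q1 Q2 r p q j (zf1 Q1 Q2 r (q + 1) p i z) =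
      zf1 Q1 Q2 r q p i (zf2 Q1 Q2 r (p + 1) q j z) := rfl
    rw [this]
    ring
  · intro q f
    rfl
  · intro p b
    rfl
  · intro q f g hfg
    funext s
    obtain ⟨c, hc⟩ := (hrow q s).1
    exact congrFun hfg ⟨(c, s), hc⟩
  · intro p f g hfg
    funext c
    obtain ⟨s, hs⟩ := (hcol p c).1
    exact congrFun hfg ⟨(c, s), fun i j => hs j i⟩
  · intro q f
    funext z
    change altd F (S := fun p => ZP Q1 Q2 r p q) (fun p => zf1 Q1 Q2 r q p) 0 _ z = 0
    rw [altd_apply, Fin.sum_univ_two]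
    simp [zf1]
  · intro p b
    funext z
    change altd F (S := fun q => ZP Q1 Q2 r p q) (fun q => zf2 Q1 Q2 r p q) 0 _ z = 0
    rw [altd_apply, Fin.sum_univ_two]
    simp [zf2]
  · intro q x hx
    have : ∀ s : Q2.S q, ∃ a, ∀ c : Q1.S 0, (∀ i j, r (c.1 i) (s.1 j)) →
        ex1 F Q1 Q2 r x s c = a := by
      intro s
      apply (hrow q s).2.1
      intro c hc
      exact (d_ex1 F Q1 Q2 r x ⟨(c, s), hc⟩).trans (congrFun hx _)
    choose a ha using this
    refine ⟨a, ?_⟩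
    funext z
    exact (ha z.1.2 z.1.1 z.2).symm.trans (ex1_apply F Q1 Q2 r x z)
  · intro p x hx
    have : ∀ c : Q1.S p, ∃ a, ∀ s : Q2.S 0, (∀ j i, r (c.1 i) (s.1 j)) →
        ex2 F Q1 Q2 r x c s = a := by
      intro c
      apply (hcol p c).2.1
      intro s hs
      exact (d_ex2 F Q1 Q2 r x ⟨(c, s), fun i j => hs j i⟩).trans (congrFun hx _)
    choose a ha using this
    refine ⟨a, ?_⟩
    funext z
    exact (ha z.1.1 z.1.2 fun j i => z.2 i j).symm.trans (ex2_apply F Q1 Q2 r x z)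
  · intro p q x hx
    have : ∀ s : Q2.S q, ∃ g : Q1.S p → F, ∀ c : Q1.S (p + 1), (∀ i j, r (c.1 i) (s.1 j)) →
        Q1.d F p g c = ex1 F Q1 Q2 r x s c := by
      intro s
      apply (hrow q s).2.2
      intro c hc
      exact (d_ex1 F Q1 Q2 r x ⟨(c, s), hc⟩).trans (congrFun hx _)
    choose g hg using this
    refine ⟨fun z => g z.1.2 z.1.1, ?_⟩
    funext z
    exact (hg z.1.2 z.1.1 z.2).trans (ex1_apply F Q1 Q2 r x z)
  · intro p q x hx
    have : ∀ c : Q1.S p, ∃ g : Q2.S q → F, ∀ s : Q2.S (q + 1), (∀ j i, r (c.1 i) (s.1 j)) →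
        Q2.d F q g s = ex2 F Q1 Q2 r x c s := by
      intro c
      apply (hcol p c).2.2
      intro s hs
      exact (d_ex2 F Q1 Q2 r x ⟨(c, s), fun i j => hs j i⟩).trans (congrFun hx _)
    choose g hg using this
    refine ⟨fun z => g z.1.1 z.1.2, ?_⟩
    funext z
    exact (hg z.1.1 z.1.2 fun j i => z.2 i j).trans (ex2_apply F Q1 Q2 r x z)

end Cmp

end Pool.Agent.H937Z.Tight
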