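import Pool.Agent.H937Z.Tight.Geo

/-! The real moment-angle complex of a Bier sphere is a topological manifold. -/

set_option autoImplicit false
set_option linter.unusedSectionVars false

open Finset

namespace Pool.Agent.H937Z.Tight

section
variable {ι : Type} [Fintype ι] [DecidableEq ι] {m : ℕ}

/-- The Bier sphere of `L`. -/
def KB (e : ι ≃ Fin (m + 1) ⊕ Fin (m + 1)) (L : Finset (Fin (m + 1)) → Prop) (S : Finset ι) : Prop :=
  L (univ.filter fun a => e.symm (Sum.inl a) ∈ S) ∧
  ¬ L (univ.filter fun a => e.symm (Sum.inr a) ∉ S) ∧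
  ∀ a, ¬ (e.symm (Sum.inl a) ∈ S ∧ e.symm (Sum.inr a) ∈ S)

variable (e : ι ≃ Fin (m + 1) ⊕ Fin (m + 1)) {L : Finset (Fin (m + 1)) → Prop}
  (hL : ∀ S T, T ⊆ S → L S → L T) (h0 : L ∅) (h1 : ¬ L univ)

include hL in
theorem KB_down : ∀ S T, T ⊆ S → KB e L S → KB e L T := by
  intro S T h ⟨a1, a2, a3⟩
  refine ⟨hL _ _ ?_ a1, fun b => a2 (hL _ _ ?_ b), fun a b => a3 a ⟨h b.1, h b.2⟩⟩
  · intro a ha
    simp only [mem_filter, mem_univ, true_and] at ha ⊢
    exact h ha
  · intro a ha
    simp only [mem_filter, mem_univ, true_and] at ha ⊢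
    exact fun b => ha (h b)

include h0 in
theorem nf_nonempty (N : {N : Finset (Fin (m + 1)) // ¬ L N}) : N.1.Nonempty := by
  rw [Finset.nonempty_iff_ne_empty]
  intro h
  exact N.2 (h ▸ h0)

open Classical in
/-- the height function of the graph -/
noncomputable def gg (w : Fin (m + 1) → ℝ) : ℝ :=
  (univ : Finset {N : Finset (Fin (m + 1)) // ¬ L N}).inf' ⟨⟨univ, h1⟩, mem_univ _⟩
    fun N => N.1.sup' (nf_nonempty h0 N) fun i => -w i

theorem continuous_gg : Continuous (gg h0 h1) := by
  unfold gg
  refine Continuous.finset_inf'_apply _ fun N _ => ?_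
  refine Continuous.finset_sup'_apply _ fun i _ => ?_
  exact (continuous_apply i).neg

include hL in
theorem gg_le_iff (w : Fin (m + 1) → ℝ) (s : ℝ) : gg h0 h1 w ≤ s ↔ ¬ L (lev w (-s)) := by
  classical
  unfold gg
  rw [Finset.inf'_le_iff]
  constructor
  · rintro ⟨N, -, hN⟩ h
    rw [Finset.sup'_le_iff] at hN
    refine N.2 (hL _ _ ?_ h)
    intro i hi
    rw [mem_lev]
    linarith [hN i hi]
  · intro h
    refine ⟨⟨_, h⟩, by simp, ?_⟩
    rw [Finset.sup'_le_iff]
    intro i hi
    rw [mem_lev] at hi
    linarith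

theorem gg_pos (w : Fin (m + 1) → ℝ) (N : Finset (Fin (m + 1)))
    (hN : ∀ i ∈ N, 0 < w i + gg h0 h1 w) : L N := by
  classical
  by_contra h
  have a1 : gg h0 h1 w ≤ N.sup' (nf_nonempty h0 ⟨N, h⟩) fun i => -w i := by
    unfold gg
    rw [Finset.inf'_le_iff]
    exact ⟨⟨N, h⟩, by simp, le_rfl⟩
  obtain ⟨i, hi, e⟩ := Finset.exists_mem_eq_sup' (nf_nonempty h0 ⟨N, h⟩) fun i => -w i
  have := hN i hi
  rw [e] at a1
  linarith

/-- the point of the graph over `w` -/
noncomputable def zz (w : EuclideanSpace ℝ (Fin m)) : Fin (m + 1) → ℝ := fun a =>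
  (Fin.snoc w.ofLp 0 : Fin (m + 1) → ℝ) a + gg h0 h1 (Fin.snoc w.ofLp 0)

theorem continuous_snoc0 :
    Continuous fun w : EuclideanSpace ℝ (Fin m) => (Fin.snoc w.ofLp 0 : Fin (m + 1) → ℝ) := by
  refine continuous_pi fun a => ?_
  refine Fin.lastCases ?_ (fun a => ?_) a
  · simp only [Fin.snoc_last]; exact continuous_const
  · simp only [Fin.snoc_castSucc]
    exact (continuous_apply a).comp (PiLp.continuous_ofLp 2 _)

theorem continuous_zz (a : Fin (m + 1)) : Continuous fun w => zz h0 h1 w a :=
  ((continuous_apply a).comp continuous_snoc0).add ((continuous_gg h0 h1).comp continuous_snoc0)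

/-- the point of the cone over `w` -/
noncomputable def lift (w : EuclideanSpace ℝ (Fin m)) : ι → ℝ := fun i =>
  Sum.elim (fun a => max (zz h0 h1 w a) 0) (fun a => max (-zz h0 h1 w a) 0) (e i)

theorem lift_l (w : EuclideanSpace ℝ (Fin m)) (a : Fin (m + 1)) :
    lift e h0 h1 w (e.symm (Sum.inl a)) = max (zz h0 h1 w a) 0 := by simp [lift]

theorem lift_r (w : EuclideanSpace ℝ (Fin m)) (a : Fin (m + 1)) :
    lift e h0 h1 w (e.symm (Sum.inr a)) = max (-zz h0 h1 w a) 0 := by simp [lift]

theorem lift_nonneg (w : EuclideanSpace ℝ (Fin m)) (i : ι) : 0 ≤ lift e h0 h1 w i := by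
  obtain ⟨j, rfl⟩ := e.symm.surjective i
  rcases j with a | a
  · rw [lift_l]; exact le_max_right _ _
  · rw [lift_r]; exact le_max_right _ _

theorem continuous_lift (i : ι) : Continuous fun w => lift e h0 h1 w i := by
  obtain ⟨j, rfl⟩ := e.symm.surjective i
  rcases j with a | a
  · simp only [lift_l]; exact (continuous_zz h0 h1 a).max continuous_const
  · simp only [lift_r]; exact (continuous_zz h0 h1 a).neg.max continuous_const

/-- the projection along the diagonal -/
noncomputable def proj (u : ι → ℝ) : EuclideanSpace ℝ (Fin m) :=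
  WithLp.toLp 2 fun a => (u (e.symm (Sum.inl a.castSucc)) - u (e.symm (Sum.inr a.castSucc))) -
    (u (e.symm (Sum.inl (Fin.last m))) - u (e.symm (Sum.inr (Fin.last m))))

theorem continuous_proj : Continuous (proj e) := by
  refine (PiLp.continuous_toLp 2 _).comp (continuous_pi fun a => ?_)
  fun_prop

theorem proj_lift (w : EuclideanSpace ℝ (Fin m)) : proj e (lift e h0 h1 w) = w := by
  ext a
  change (lift e h0 h1 w _ - lift e h0 h1 w _) - (lift e h0 h1 w _ - lift e h0 h1 w _) = _
  rw [lift_l, lift_r, lift_l, lift_r, max_zero_sub_max_neg_zero_eq_self,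
    max_zero_sub_max_neg_zero_eq_self]
  simp [zz]

include hL in
theorem clip_mem (w : EuclideanSpace ℝ (Fin m)) :
    (fun i => min 1 (lift e h0 h1 w i)) ∈ MM (KB e L) := by
  refine ⟨fun i => ⟨le_min zero_le_one (lift_nonneg e h0 h1 w i), min_le_left _ _⟩, ?_, ?_, ?_⟩
  · apply gg_pos h0 h1 (Fin.snoc w.ofLp 0)
    intro a ha
    simp only [mem_filter, mem_univ, true_and, mem_frac, lift_l, lt_min_iff, lt_max_iff,
      lt_irrefl, or_false] at ha
    exact ha.1.2
  · intro h
    refine (gg_le_iff hL h0 h1 (Fin.snoc w.ofLp 0) _).1 le_rfl (hL _ _ ?_ h)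
    intro a ha
    rw [mem_lev] at ha
    simp only [mem_filter, mem_univ, true_and, mem_frac, lift_r, lt_min_iff, lt_max_iff,
      lt_irrefl, or_false]
    rintro ⟨⟨-, h2⟩, -⟩
    unfold zz at h2
    linarith
  · intro a ⟨a1, a2⟩
    simp only [mem_frac, lift_l, lift_r, lt_min_iff, lt_max_iff, lt_irrefl, or_false] at a1 a2
    linarith [a1.1.2, a2.1.2]

include hL in
theorem lift_proj {u : ι → ℝ} (hu : u ∈ MM (KB e L)) (hu1 : ∀ i, u i < 1) :
    lift e h0 h1 (proj e u) = u := by
  obtain ⟨b0, b1, b2, b3⟩ := hu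
  let z : Fin (m + 1) → ℝ := fun a => u (e.symm (Sum.inl a)) - u (e.symm (Sum.inr a))
  have hd : ∀ a, u (e.symm (Sum.inl a)) = 0 ∨ u (e.symm (Sum.inr a)) = 0 := by
    intro a
    by_contra h
    push Not at h
    exact b3 a ⟨mem_frac.2 ⟨lt_of_le_of_ne (b0 _).1 h.1.symm, hu1 _⟩,
      mem_frac.2 ⟨lt_of_le_of_ne (b0 _).1 h.2.symm, hu1 _⟩⟩
  have hw : (Fin.snoc (proj e u).ofLp 0 : Fin (m + 1) → ℝ) = fun a => z a - z (Fin.last m) := by
    funext a
    refine Fin.lastCases ?_ (fun a => ?_) a
    · simp
    · simp only [Fin.snoc_castSucc]; rfl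
  have hg : gg h0 h1 (fun a => z a - z (Fin.last m)) = z (Fin.last m) := by
    apply le_antisymm
    · rw [gg_le_iff hL]
      intro h
      refine b2 (hL _ _ ?_ h)
      intro a ha
      simp only [mem_filter, mem_univ, true_and, mem_frac] at ha
      rw [mem_lev]
      have : u (e.symm (Sum.inr a)) = 0 := by
        by_contra h'
        exact ha ⟨lt_of_le_of_ne (b0 _).1 (Ne.symm h'), hu1 _⟩
      have h2 : 0 ≤ z a := by
        simp only [z, this, sub_zero]; exact (b0 _).1
      linarith
    · by_contra h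
      rw [not_le] at h
      refine (gg_le_iff hL h0 h1 (fun a => z a - z (Fin.last m)) _).1 le_rfl (hL _ _ ?_ b1)
      intro a ha
      rw [mem_lev] at ha
      simp only [mem_filter, mem_univ, true_and, mem_frac]
      refine ⟨?_, hu1 _⟩
      have h2 : 0 < z a := by linarith
      have := (b0 (e.symm (Sum.inr a))).1
      simp only [z] at h2
      linarith
  have hz : ∀ a, zz h0 h1 (proj e u) a = z a := by
    intro a
    unfold zz
    rw [hw, hg]; ring
  funext i
  obtain ⟨j, rfl⟩ := e.symm.surjective i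
  rcases j with a | a
  · rw [lift_l, hz]
    rcases hd a with h | h
    · simp only [z, h]
      apply max_eq_right
      linarith [(b0 (e.symm (Sum.inr a))).1]
    · simp only [z, h, sub_zero]
      exact max_eq_left (b0 _).1
  · rw [lift_r, hz]
    rcases hd a with h | h
    · simp only [z, h, zero_sub, neg_neg]
      exact max_eq_left (b0 _).1
    · simp only [z, h]
      apply max_eq_right
      linarith [(b0 (e.symm (Sum.inl a))).1]

/-- the chart at a vertex of the cube -/
noncomputable def chartB (P : ι → Prop) [DecidablePred P] :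
    OpenPartialHomeomorph (TT (KB e L)).space (EuclideanSpace ℝ (Fin m)) where
  toFun x := proj e (flp P x.1.ofLp)
  invFun w := ⟨WithLp.toLp 2 (flp P fun i => min 1 (lift e h0 h1 w i)),
    (TT_space (KB_down e hL) _).2 (flp_mem P (clip_mem e hL h0 h1 w))⟩
  source := {x | ∀ i, flp P x.1.ofLp i < 1}
  target := {w | ∀ i, lift e h0 h1 w i < 1}
  map_source' x hx := by
    intro i
    rw [lift_proj e hL h0 h1 (flp_mem P ((TT_space (KB_down e hL) _).1 x.2)) hx]
    exact hx i
  map_target' w hw := by
    intro i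
    simp only [flp_flp]
    exact (min_le_right _ _).trans_lt (hw i)
  left_inv' x hx := by
    apply Subtype.ext
    simp only
    rw [lift_proj e hL h0 h1 (flp_mem P ((TT_space (KB_down e hL) _).1 x.2)) hx]
    have : (fun i => min 1 (flp P x.1.ofLp i)) = flp P x.1.ofLp := by
      funext i; exact min_eq_right (hx i).le
    rw [this, flp_flp]
  right_inv' w hw := by
    simp only [flp_flp]
    have : (fun i => min 1 (lift e h0 h1 w i)) = lift e h0 h1 w := by
      funext i; exact min_eq_right (hw i).le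
    rw [this, proj_lift]
  open_source := by
    simp only [Set.setOf_forall]
    refine isOpen_iInter_of_finite fun i => isOpen_lt ?_ continuous_const
    exact (continuous_apply i).comp ((continuous_flp P).comp
      ((PiLp.continuous_ofLp 2 _).comp continuous_subtype_val))
  open_target := by
    simp only [Set.setOf_forall]
    exact isOpen_iInter_of_finite fun i => isOpen_lt (continuous_lift e h0 h1 i) continuous_const
  continuousOn_toFun := ((continuous_proj e).comp ((continuous_flp P).comp
      ((PiLp.continuous_ofLp 2 _).comp continuous_subtype_val))).continuousOn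
  continuousOn_invFun := by
    refine Continuous.continuousOn (Continuous.subtype_mk ?_ _)
    exact (PiLp.continuous_toLp 2 _).comp ((continuous_flp P).comp
      (continuous_pi fun i => continuous_const.min (continuous_lift e h0 h1 i)))

include hL h0 h1 in
theorem TT_manifold :
    Nonempty (ChartedSpace (EuclideanSpace ℝ (Fin m)) (TT (KB e L)).space) := by
  classical
  refine ⟨{ atlas := Set.univ
            chartAt := fun x => chartB e hL h0 h1 fun i => x.1 i < 1
            mem_chart_source := fun x i => ?_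
            chart_mem_atlas := fun _ => Set.mem_univ _ }⟩
  unfold flp
  split_ifs with h
  · exact h
  · linarith [not_lt.1 h]

end

end Pool.Agent.H937Z.Tight
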