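import Pool.Agent.H937Z.Tight.Split
import Pool.Agent.H937Z.Tight.Mfd

/-! First Betti numbers of the full subcomplexes of a Bier sphere. -/

set_option autoImplicit false
set_option linter.unusedSectionVars false

open Pool.Agent.Helper663.Sc Module Finset

namespace Pool.Agent.H937Z.Tight

/-- functions which are constant along a relation -/
def LC (F : Type) [Field F] {α : Type} (R : α → α → Prop) : Submodule F (α → F) where
  carrier := {f | ∀ a b, R a b → f a = f b}
  add_mem' := fun hf hg a b h => by simp only [Pi.add_apply, hf a b h, hg a b h]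
  zero_mem' := fun _ _ _ => rfl
  smul_mem' := fun c f hf a b h => by simp only [Pi.smul_apply, hf a b h]

theorem finrank_LC (F : Type) [Field F] {α : Type} [Finite α] (R : α → α → Prop) :
    finrank F (LC F R) = Nat.card (Quot R) := by
  let e : LC F R ≃ₗ[F] (Quot R → F) :=
    { toFun := fun f => Quot.lift f.1 f.2
      invFun := fun g => ⟨fun a => g (Quot.mk R a), fun a b h => congrArg g (Quot.sound h)⟩
      map_add' := fun f g => by funext q; induction q using Quot.ind; rfl
      map_smul' := fun c f => by funext q; induction q using Quot.ind; rfl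
      left_inv := fun f => rfl
      right_inv := fun g => by funext q; induction q using Quot.ind; rfl }
  have := Fintype.ofFinite (Quot R)
  rw [e.finrank_eq, Module.finrank_fintype_fun_eq_card, Nat.card_eq_fintype_card]

theorem z_zero {P : Type} (F : Type) [Field F] (Q : TP P) [Finite (Q.S 0)] :
    Q.z F 0 = Nat.card (Quot fun a b : Q.S 0 => ∃ s, Q.fc 0 0 s = a ∧ Q.fc 0 1 s = b) := by
  rw [← finrank_LC F, TP.z]
  suffices h : LinearMap.ker (Q.d F 0) =
      LC F fun a b : Q.S 0 => ∃ s, Q.fc 0 0 s = a ∧ Q.fc 0 1 s = b by rw [h]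
  ext f
  rw [LinearMap.mem_ker]
  constructor
  · rintro h _ _ ⟨s, rfl, rfl⟩
    have := congrFun h s
    rw [altd_apply, Fin.sum_univ_two] at this
    simp only [Fin.val_zero, pow_zero, one_mul, Fin.val_one, pow_one, neg_mul,
      Pi.zero_apply] at this
    exact sub_eq_zero.1 (by rw [sub_eq_add_neg]; exact this)
  · intro h
    funext s
    rw [altd_apply, Fin.sum_univ_two, h _ _ ⟨s, rfl, rfl⟩]
    simp

theorem d_one {P : Type} (F : Type) [Field F] (Q : TP P) (G : Q.S 1 → F) (s : Q.S 2) :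
    Q.d F 1 G s = G (Q.fc 1 0 s) - G (Q.fc 1 1 s) + G (Q.fc 1 2 s) := by
  rw [altd_apply, Fin.sum_univ_three]
  simp [sub_eq_add_neg]

theorem fc_one {P : Type} (Q : TP P) (s : Q.S 2) :
    (Q.fc 1 0 s).1 = ![s.1 1, s.1 2] ∧ (Q.fc 1 1 s).1 = ![s.1 0, s.1 2] ∧
      (Q.fc 1 2 s).1 = ![s.1 0, s.1 1] := by
  refine ⟨?_, ?_, ?_⟩ <;> funext i <;> fin_cases i <;> rfl

open Classical in
/-- a `1`-cochain as a function of two vertices -/
noncomputable def Gx {P F : Type} [Field F] (Q : TP P) (G : Q.S 1 → F) (u v : P) : F :=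
  if h : Q.R 1 ![u, v] then G ⟨![u, v], h⟩ else 0

theorem Gx_eq {P F : Type} [Field F] (Q : TP P) (G : Q.S 1 → F) (s : Q.S 1) (u v : P)
    (h : s.1 = ![u, v]) : G s = Gx Q G u v := by
  obtain ⟨s, hs⟩ := s
  subst h
  unfold Gx
  rw [dif_pos hs]

theorem d_Gx {P F : Type} [Field F] (Q : TP P) (G : Q.S 1 → F) (s : Q.S 2) :
    Q.d F 1 G s = Gx Q G (s.1 1) (s.1 2) - Gx Q G (s.1 0) (s.1 2) + Gx Q G (s.1 0) (s.1 1) := by
  rw [d_one, Gx_eq Q G _ _ _ (fc_one Q s).1, Gx_eq Q G _ _ _ (fc_one Q s).2.1,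
    Gx_eq Q G _ _ _ (fc_one Q s).2.2]

section Cone
variable {V : Type} [Finite V] [DecidableEq V] (K : PreAbstractSimplicialComplex V) (a a' : V)

/-- two vertices in a common face -/
def Ed (u v : V) : Prop := ∃ σ ∈ K.faces, u ∈ σ ∧ v ∈ σ

/-- three vertices in a common face -/
def Tr (u v w : V) : Prop := ∃ σ ∈ K.faces, u ∈ σ ∧ v ∈ σ ∧ w ∈ σ

/-- the index set of the potentials -/
abbrev WW : Type := {v // Ed K a' v ∧ v ≠ a'} ⊕ {v // Ed K a v ∧ v ≠ a}

/-- the relation on the index set -/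
def RW (x y : WW K a a') : Prop := ∃ u v, x = Sum.inr u ∧ y = Sum.inr v ∧ Tr K a u.1 v.1

theorem cocyc {F : Type} [Field F] (G : (tupTP K).S 1 → F) (hG : (tupTP K).d F 1 G = 0) {u v w : V}
    (h : Tr K u v w) : Gx (tupTP K) G v w - Gx (tupTP K) G u w + Gx (tupTP K) G u v = 0 := by
  obtain ⟨σ, h0, h1, h2, h3⟩ := h
  have := congrFun hG ⟨![u, v, w], σ, h0, fun i => by fin_cases i <;> assumption⟩
  rw [d_Gx] at this
  exact this

variable (hne : a' ≠ a) (hcone : ∀ u v, Ed K u v → u ≠ a → v ≠ a → Tr K a' u v)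
  (hna : ¬ Ed K a' a)

include hcone hna in
theorem z_one_le (F : Type) [Field F] : (tupTP K).z F 1 ≤ Nat.card (Quot (RW K a a')) := by
  rw [← finrank_LC F]
  let ψ : LinearMap.ker ((tupTP K).d F 1) →ₗ[F] LC F (RW K a a') :=
    { toFun := fun G => ⟨Sum.elim (fun v => Gx (tupTP K) G.1 a' v.1)
        (fun v => Gx (tupTP K) G.1 a' v.1 - Gx (tupTP K) G.1 a v.1), by
          rintro _ _ ⟨u, v, rfl, rfl, h⟩
          have a1 := cocyc K G.1 G.2 h
          obtain ⟨σ, h0, -, h2, h3⟩ := h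
          have a2 := cocyc K G.1 G.2 (hcone _ _ ⟨σ, h0, h2, h3⟩ u.2.2 v.2.2)
          simp only [Sum.elim_inr]
          linear_combination a2 - a1⟩
      map_add' := fun G G' => by
        apply Subtype.ext
        funext x
        rcases x with v | v <;> simp only [Sum.elim_inl, Sum.elim_inr, Submodule.coe_add,
          Pi.add_apply, Gx] <;> split_ifs <;> ring
      map_smul' := fun c G => by
        apply Subtype.ext
        funext x
        rcases x with v | v <;> simp only [Sum.elim_inl, Sum.elim_inr, Submodule.coe_smul,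
          Pi.smul_apply, Gx, RingHom.id_apply, smul_eq_mul] <;> split_ifs <;> ring }
  refine LinearMap.finrank_le_finrank_of_injective (f := ψ) ?_
  rw [injective_iff_map_eq_zero]
  intro G hG
  have h1 := congrFun (congrArg Subtype.val hG)
  have hself : ∀ u v, Ed K u v → Gx (tupTP K) G.1 u u = 0 := by
    rintro u v ⟨σ, h0, h2, -⟩
    have := cocyc K G.1 G.2 ⟨σ, h0, h2, h2, h2⟩
    linear_combination this
  have b1 : ∀ v, Ed K a' v → Gx (tupTP K) G.1 a' v = 0 := by
    intro v hv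
    by_cases e : v = a'
    · subst e; exact hself _ _ hv
    · exact h1 (Sum.inl ⟨v, hv, e⟩)
  have b2 : ∀ v, Ed K a v → Gx (tupTP K) G.1 a v = 0 := by
    intro v hv
    by_cases e : v = a
    · subst e; exact hself _ _ hv
    · have a1 : Gx (tupTP K) G.1 a' v - Gx (tupTP K) G.1 a v = 0 := h1 (Sum.inr ⟨v, hv, e⟩)
      obtain ⟨σ, h0, -, h3⟩ := hv
      obtain ⟨τ, k0, k1, k2, -⟩ := hcone v v ⟨σ, h0, h3, h3⟩ e e
      rw [b1 v ⟨τ, k0, k1, k2⟩] at a1
      linear_combination -a1
  apply Subtype.ext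
  funext s
  obtain ⟨σ, h0, h2⟩ := s.2
  rw [Gx_eq (tupTP K) G.1 s (s.1 0) (s.1 1) (by funext i; fin_cases i <;> rfl)]
  change _ = 0
  by_cases e1 : s.1 0 = a
  · rw [e1]; exact b2 _ ⟨σ, h0, e1 ▸ h2 0, h2 1⟩
  by_cases e2 : s.1 1 = a
  · have ha : a ∈ σ := e2 ▸ h2 1
    have := cocyc K G.1 G.2 ⟨σ, h0, ha, h2 0, ha⟩
    rw [b2 _ ⟨σ, h0, ha, ha⟩, b2 _ ⟨σ, h0, ha, h2 0⟩] at this
    rw [e2]
    linear_combination this
  · have h := hcone _ _ ⟨σ, h0, h2 0, h2 1⟩ e1 e2
    have := cocyc K G.1 G.2 h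
    obtain ⟨τ, k0, k1, k2, k3⟩ := h
    rw [b1 _ ⟨τ, k0, k1, k2⟩, b1 _ ⟨τ, k0, k1, k3⟩] at this
    linear_combination this

open Classical in
/-- first potential -/
noncomputable def pa {F : Type} [Field F] (φ : WW K a a' → F) (v : V) : F :=
  if h : Ed K a' v ∧ v ≠ a' then φ (Sum.inl ⟨v, h⟩) else 0

open Classical in
/-- second potential -/
noncomputable def pb' {F : Type} [Field F] (φ : WW K a a' → F) (v : V) : F :=
  if h : Ed K a v ∧ v ≠ a then φ (Sum.inr ⟨v, h⟩) else 0

include hne hna in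
theorem le_z_one (F : Type) [Field F] : Nat.card (Quot (RW K a a')) ≤ (tupTP K).z F 1 := by
  rw [← finrank_LC F]
  have hba : ∀ φ : WW K a a' → F, pb' K a a' φ a = 0 := fun φ => dif_neg fun h => h.2 rfl
  have haa : ∀ φ : WW K a a' → F, pa K a a' φ a = 0 := fun φ => dif_neg fun h => hna h.1
  have haa' : ∀ φ : WW K a a' → F, pa K a a' φ a' = 0 := fun φ => dif_neg fun h => h.2 rfl
  let θ : LC F (RW K a a') →ₗ[F] LinearMap.ker ((tupTP K).d F 1) :=
    { toFun := fun φ => ⟨fun s => pa K a a' φ.1 (s.1 1) - pa K a a' φ.1 (s.1 0) -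
          (if s.1 0 = a then pb' K a a' φ.1 (s.1 1) else 0) +
          (if s.1 1 = a then pb' K a a' φ.1 (s.1 0) else 0), by
        funext s
        obtain ⟨σ, h0, h2⟩ := s.2
        have hβ : ∀ i j k, s.1 i = a → s.1 j ≠ a → s.1 k ≠ a →
            pb' K a a' φ.1 (s.1 j) = pb' K a a' φ.1 (s.1 k) := by
          intro i j k e1 e2 e3
          have ha : a ∈ σ := e1 ▸ h2 i
          unfold pb'
          rw [dif_pos ⟨⟨σ, h0, ha, h2 j⟩, e2⟩, dif_pos ⟨⟨σ, h0, ha, h2 k⟩, e3⟩]
          exact φ.2 _ _ ⟨_, _, rfl, rfl, σ, h0, ha, h2 j, h2 k⟩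
        rw [d_one, (fc_one _ s).1, (fc_one _ s).2.1, (fc_one _ s).2.2]
        simp only [Matrix.cons_val_zero, Matrix.cons_val_one, Pi.zero_apply]
        by_cases e0 : s.1 0 = a <;> by_cases e1 : s.1 1 = a <;> by_cases e2 : s.1 2 = a
        · simp only [e0, e1, e2, if_true, hba]; ring
        · simp only [e0, e1, e2, if_true, if_false, hba]; ring
        · simp only [e0, e1, e2, if_true, if_false, hba]; ring
        · simp only [e0, e1, e2, if_true, if_false, hβ 0 1 2 e0 e1 e2]; ring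
        · simp only [e0, e1, e2, if_true, if_false, hba]; ring
        · simp only [e0, e1, e2, if_true, if_false, hβ 1 0 2 e1 e0 e2]; ring
        · simp only [e0, e1, e2, if_true, if_false, hβ 2 0 1 e2 e0 e1]; ring
        · simp only [e0, e1, e2, if_false]; ring⟩
      map_add' := fun φ φ' => by
        apply Subtype.ext
        funext s
        simp only [Submodule.coe_add, Pi.add_apply, pa, pb']
        split_ifs <;> ring
      map_smul' := fun c φ => by
        apply Subtype.ext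
        funext s
        simp only [Submodule.coe_smul, Pi.smul_apply, pa, pb', RingHom.id_apply, smul_eq_mul]
        split_ifs <;> ring }
  refine LinearMap.finrank_le_finrank_of_injective (f := θ) ?_
  rw [injective_iff_map_eq_zero]
  intro φ hφ
  have h1 := congrFun (congrArg Subtype.val hφ)
  have h2 : ∀ u v, Ed K u v → pa K a a' φ.1 v - pa K a a' φ.1 u -
      (if u = a then pb' K a a' φ.1 v else 0) + (if v = a then pb' K a a' φ.1 u else 0) = 0 := by
    rintro u v ⟨σ, h0, k1, k2⟩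
    exact h1 ⟨![u, v], σ, h0, fun i => by fin_cases i <;> assumption⟩
  have b1 : ∀ v, pa K a a' φ.1 v = 0 := by
    intro v
    by_cases h : Ed K a' v ∧ v ≠ a'
    · have := h2 _ _ h.1
      rw [haa', if_neg hne, if_neg fun e : v = a => hna (e ▸ h.1)] at this
      linear_combination this
    · exact dif_neg h
  apply Subtype.ext
  funext x
  rcases x with v | v
  · have := b1 v.1
    unfold pa at this
    rw [dif_pos v.2] at this
    exact this
  · have := h2 _ _ v.2.1
    rw [b1, b1, if_pos rfl, if_neg v.2.2] at this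
    unfold pb' at this
    rw [dif_pos v.2] at this
    change φ.1 (Sum.inr v) = 0
    linear_combination -this

end Cone

/-- the triangles of an eight vertex complex with first homology of order three -/
def tri : Fin 17 → Fin 8 × Fin 8 × Fin 8 :=
  ![(0, 1, 4), (0, 1, 5), (0, 1, 6), (0, 2, 3), (0, 2, 6), (0, 2, 7), (0, 3, 4), (0, 5, 7),
    (1, 2, 3), (1, 2, 4), (1, 2, 7), (1, 3, 5), (1, 6, 7), (2, 4, 6), (3, 4, 5), (4, 5, 7),
    (4, 6, 7)]

/-- membership in a triangle -/
def inT (k : Fin 17) (x : Fin 8) : Prop := x = (tri k).1 ∨ x = (tri k).2.1 ∨ x = (tri k).2.2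

instance (k : Fin 17) (x : Fin 8) : Decidable (inT k x) := by unfold inT; infer_instance

/-- the complex -/
def LL (S : Finset (Fin 8)) : Prop := ∃ k, ∀ x ∈ S, inT k x

theorem LL_down : ∀ S T, T ⊆ S → LL S → LL T := fun _ _ h ⟨k, hk⟩ => ⟨k, fun x hx => hk x (h hx)⟩

theorem LL_empty : LL ∅ := ⟨0, by simp⟩

theorem LL_card {S : Finset (Fin 8)} (h : LL S) : S.card ≤ 3 := by
  obtain ⟨k, hk⟩ := h
  refine (Finset.card_le_card (t := {(tri k).1, (tri k).2.1, (tri k).2.2}) ?_).trans
    Finset.card_le_three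
  intro x hx
  simpa [inT] using hk x hx

theorem LL_univ : ¬ LL univ := fun h => by simpa using LL_card h

theorem tri_of : ∀ k a b c, a < b → b < c → inT k a → inT k b → inT k c → tri k = (a, b, c) := by
  decide +kernel

theorem tri_lt : ∀ k, (tri k).1 < (tri k).2.1 ∧ (tri k).2.1 < (tri k).2.2 := by decide +kernel

/-- cochains mod two with prescribed coboundary -/
def gm (k : Fin 17) (a b : Fin 8) : ZMod 2 :=
  if (![5781594, 5247042, 534554, 5781570, 534618, 5247004, 5781578, 5247074, 5257282, 5777498,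
    529432, 5255234, 550938, 4728922, 274217034, 137713170506, 274882635866] k : ℕ).testBit
    (8 * a.val + b.val) then 1 else 0

theorem gm_spec : ∀ k k', gm k (tri k').2.1 (tri k').2.2 - gm k (tri k').1 (tri k').2.2 +
    gm k (tri k').1 (tri k').2.1 = if tri k = tri k' then 1 else 0 := by decide +kernel

/-- a cycle mod three -/
def wt : Fin 17 → ZMod 3 := ![1, 1, 1, -1, -1, -1, -1, 1, 1, 1, 1, 1, -1, -1, 1, -1, 1]

theorem wt_spec (G : Fin 8 → Fin 8 → ZMod 3) : ∑ k, wt k * (G (tri k).2.1 (tri k).2.2 -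
    G (tri k).1 (tri k).2.2 + G (tri k).1 (tri k).2.1) = 0 := by
  have h3 : (3 : ZMod 3) = 0 := rfl
  simp only [Fin.sum_univ_succ, Fin.sum_univ_zero, wt, tri, Matrix.cons_val_zero,
    Matrix.cons_val_succ]
  linear_combination (G 0 1 + G 1 2 - G 0 2) * h3

theorem wt_spec2 : ∑ k, wt k * (if (tri k).1 = 3 then 1 else 0) ≠ 0 := by decide +kernel

/-- the splitting of the sixteen coordinates -/
def e16 : Fin 16 ≃ Fin (7 + 1) ⊕ Fin (7 + 1) := (finSumFinEquiv (m := 8) (n := 8)).symm

/-- the Bier sphere -/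
def K16 : Finset (Fin 16) → Prop := KB e16 LL

theorem K16_down : ∀ S T, T ⊆ S → K16 S → K16 T := KB_down e16 LL_down

theorem l_lt : ∀ a b : Fin 8, e16.symm (Sum.inl a) < e16.symm (Sum.inl b) ↔ a < b := by
  decide +kernel

theorem not_LL_compl (S : Finset (Fin 16)) (h : S.card ≤ 3) :
    ¬ LL (univ.filter fun a => e16.symm (Sum.inr a) ∉ S) := by
  intro h1
  have h2 := LL_card h1
  have h3 : (univ.filter fun a : Fin (7 + 1) => e16.symm (Sum.inr a) ∈ S).card ≤ S.card :=
    Finset.card_le_card_of_injOn (fun a => e16.symm (Sum.inr a))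
      (fun a ha => by simpa using ha) fun a _ b _ e => Sum.inr_injective (e16.symm.injective e)
  have h4 := Finset.card_filter_add_card_filter_not (s := (univ : Finset (Fin (7 + 1))))
    (fun a => e16.symm (Sum.inr a) ∈ S)
  rw [card_univ, Fintype.card_fin] at h4
  have h5 := h4 ▸ Nat.add_le_add (h3.trans h) h2
  omega

theorem caseB (U : Finset (Fin 16)) (x : Fin 8) (hx : e16.symm (Sum.inr x) ∉ U) :
    (chTP (XU K16_down U)).b (ZMod 2) 1 ≤ (chTP (XU K16_down U)).b (ZMod 3) 1 := by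
  rw [← b_tup, ← b_tup]
  have hne : e16.symm (Sum.inr x) ≠ e16.symm (Sum.inl x) := fun e => by
    simpa using e16.symm.injective e
  have hna : ¬ Ed (XU K16_down U) (e16.symm (Sum.inr x)) (e16.symm (Sum.inl x)) := by
    rintro ⟨σ, h0, h1, h2⟩
    exact h0.2.1.2.2 x ⟨h2, h1⟩
  have hcone : ∀ u v, Ed (XU K16_down U) u v → u ≠ e16.symm (Sum.inl x) →
      v ≠ e16.symm (Sum.inl x) → Tr (XU K16_down U) (e16.symm (Sum.inr x)) u v := by
    rintro u v ⟨σ, h0, h1, h2⟩ hu hv
    refine ⟨{e16.symm (Sum.inr x), u, v}, ⟨by simp, ⟨LL_down _ _ ?_ h0.2.1.1,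
      not_LL_compl _ Finset.card_le_three, ?_⟩, ?_⟩, by simp, by simp, by simp⟩
    · intro y hy
      simp only [mem_filter, mem_univ, true_and, mem_insert, mem_singleton] at hy ⊢
      rcases hy with h | h | h
      · simpa using e16.symm.injective h
      · exact h ▸ h1
      · exact h ▸ h2
    · rintro y ⟨k1, k2⟩
      simp only [mem_insert, mem_singleton] at k1 k2
      have k3 : e16.symm (Sum.inl y) ∈ σ ∧ y ≠ x := by
        rcases k1 with h | h | h
        · simpa using e16.symm.injective h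
        · exact ⟨h ▸ h1, fun e => hu (e ▸ h.symm)⟩
        · exact ⟨h ▸ h2, fun e => hv (e ▸ h.symm)⟩
      refine h0.2.1.2.2 y ⟨k3.1, ?_⟩
      rcases k2 with h | h | h
      · exact absurd (Sum.inr_injective (e16.symm.injective h)) k3.2
      · exact h ▸ h1
      · exact h ▸ h2
    · rw [Finset.disjoint_left]
      intro y hy
      simp only [mem_insert, mem_singleton] at hy
      rcases hy with h | h | h
      · exact h ▸ hx
      · exact h ▸ Finset.disjoint_left.1 h0.2.2 h1
      · exact h ▸ Finset.disjoint_left.1 h0.2.2 h2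
  have a1 := z_one_le _ _ _ hcone hna (ZMod 2)
  have a2 := le_z_one _ _ _ hne hna (ZMod 3)
  have a3 := TP.b_succ (ZMod 2) (tupTP (XU K16_down U)) 0
  have a4 := TP.b_succ (ZMod 3) (tupTP (XU K16_down U)) 0
  rw [z_zero] at a3 a4
  simp only [zero_add] at a3 a4
  omega

/-- forgetting the side -/
def lo (i : Fin 16) : Fin 8 := Sum.elim id id (e16 i)

theorem lo_l (a : Fin 8) : lo (e16.symm (Sum.inl a)) = a := by simp [lo]

theorem exists_tri (U : Finset (Fin 16)) (hU : ∀ x, e16.symm (Sum.inr x) ∈ U)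
    (s : (strTP (XU K16_down U)).S 2) : ∃ k, tri k = (lo (s.1 0), lo (s.1 1), lo (s.1 2)) ∧
      ∀ i, s.1 i = e16.symm (Sum.inl (lo (s.1 i))) := by
  obtain ⟨h1, σ, h2, h3⟩ := s.2
  have h4 : ∀ i, s.1 i = e16.symm (Sum.inl (lo (s.1 i))) := by
    intro i
    obtain ⟨j, hj⟩ := e16.symm.surjective (s.1 i)
    rcases j with y | y
    · rw [← hj, lo_l]
    · exact absurd (hj ▸ hU y) (Finset.disjoint_left.1 h2.2.2 (h3 i))
  obtain ⟨k, hk⟩ := h2.2.1.1
  have h5 : ∀ i, inT k (lo (s.1 i)) := fun i => hk _ (by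
    simp only [mem_filter, mem_univ, true_and]; exact h4 i ▸ h3 i)
  refine ⟨k, tri_of k _ _ _ ?_ ?_ (h5 0) (h5 1) (h5 2), h4⟩
  · rw [← l_lt, ← h4, ← h4]; exact h1 (by decide)
  · rw [← l_lt, ← h4, ← h4]; exact h1 (by decide)

theorem rk_two (U : Finset (Fin 16)) (hU : ∀ x, e16.symm (Sum.inr x) ∈ U) :
    (strTP (XU K16_down U)).rk (ZMod 2) 1 = Nat.card ((strTP (XU K16_down U)).S 2) := by
  classical
  have := Fintype.ofFinite ((strTP (XU K16_down U)).S 2)
  have : LinearMap.range ((strTP (XU K16_down U)).d (ZMod 2) 1) = ⊤ := by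
    rw [Submodule.eq_top_iff']
    intro φ
    rw [pi_eq_sum_univ φ]
    refine Submodule.sum_mem _ fun s _ => Submodule.smul_mem _ _ ?_
    obtain ⟨k, hk, hs⟩ := exists_tri U hU s
    refine ⟨fun t => gm k (lo (t.1 0)) (lo (t.1 1)), ?_⟩
    funext s'
    obtain ⟨k', hk', hs'⟩ := exists_tri U hU s'
    have := gm_spec k k'
    rw [hk, hk'] at this
    rw [d_one, (fc_one _ s').1, (fc_one _ s').2.1, (fc_one _ s').2.2]
    simp only [Matrix.cons_val_zero, Matrix.cons_val_one] at this ⊢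
    rw [this]
    congr 1
    apply propext
    constructor
    · intro h
      simp only [Prod.mk.injEq] at h
      apply Subtype.ext
      funext i
      rw [hs i, hs' i]
      fin_cases i
      · exact congrArg (fun y => e16.symm (Sum.inl y)) h.1
      · exact congrArg (fun y => e16.symm (Sum.inl y)) h.2.1
      · exact congrArg (fun y => e16.symm (Sum.inl y)) h.2.2
    · rintro rfl; rfl
  rw [TP.rk, this, finrank_top, Module.finrank_fintype_fun_eq_card, Nat.card_eq_fintype_card]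

theorem ch16 (U : Finset (Fin 16)) :
    ∀ σ ∈ (XU K16_down U).faces, ∀ u ∈ σ, ∀ v ∈ σ, u ≤ v ∨ v ≤ u :=
  fun _ _ u _ v _ => le_total u v

theorem caseA (U : Finset (Fin 16)) (hU : ∀ x, e16.symm (Sum.inr x) ∈ U) :
    (chTP (XU K16_down U)).b (ZMod 3) 1 + (strTP (XU K16_down U)).rk (ZMod 3) 1 =
      (chTP (XU K16_down U)).b (ZMod 2) 1 + Nat.card ((strTP (XU K16_down U)).S 2) := by
  rw [← b_str _ _ (ch16 U), ← b_str _ _ (ch16 U)]
  have a1 := rk_two U hU
  have a3 := TP.b_succ (ZMod 2) (strTP (XU K16_down U)) 0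
  have a4 := TP.b_succ (ZMod 3) (strTP (XU K16_down U)) 0
  have a5 := TP.rk_add_z (ZMod 2) (strTP (XU K16_down U)) 1
  have a6 := TP.rk_add_z (ZMod 3) (strTP (XU K16_down U)) 1
  rw [z_zero] at a3 a4
  simp only [zero_add] at a3 a4
  omega

theorem all_le (U : Finset (Fin 16)) :
    (chTP (XU K16_down U)).b (ZMod 2) 1 ≤ (chTP (XU K16_down U)).b (ZMod 3) 1 := by
  by_cases hU : ∀ x, e16.symm (Sum.inr x) ∈ U
  · have a1 := caseA U hU
    have := Fintype.ofFinite ((strTP (XU K16_down U)).S 2)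
    have a2 : (strTP (XU K16_down U)).rk (ZMod 3) 1 ≤
        Nat.card ((strTP (XU K16_down U)).S 2) := by
      rw [Nat.card_eq_fintype_card, ← Module.finrank_fintype_fun_eq_card (ZMod 3)]
      exact Submodule.finrank_le _
    omega
  · push Not at hU
    obtain ⟨x, hx⟩ := hU
    exact caseB U x hx

theorem ex_lt : ∃ U, (chTP (XU K16_down U)).b (ZMod 2) 1 < (chTP (XU K16_down U)).b (ZMod 3) 1 := by
  let U : Finset (Fin 16) := univ.image fun x => e16.symm (Sum.inr x)
  have hU : ∀ x, e16.symm (Sum.inr x) ∈ U := fun x => Finset.mem_image_of_mem _ (mem_univ x)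
  refine ⟨U, ?_⟩
  have a1 := caseA U hU
  have := Fintype.ofFinite ((strTP (XU K16_down U)).S 2)
  let sK : Fin 17 → (strTP (XU K16_down U)).S 2 := fun k =>
    ⟨![e16.symm (Sum.inl (tri k).1), e16.symm (Sum.inl (tri k).2.1),
      e16.symm (Sum.inl (tri k).2.2)], by
      refine ⟨?_, {e16.symm (Sum.inl (tri k).1), e16.symm (Sum.inl (tri k).2.1),
        e16.symm (Sum.inl (tri k).2.2)}, ⟨by simp, ⟨⟨k, ?_⟩,
          not_LL_compl _ Finset.card_le_three, ?_⟩, ?_⟩, fun i => by fin_cases i <;> simp⟩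
      · rw [Fin.strictMono_iff_lt_succ]
        intro i
        fin_cases i
        · exact (l_lt _ _).2 (tri_lt k).1
        · exact (l_lt _ _).2 (tri_lt k).2
      · intro x hx
        simpa [inT] using hx
      · intro y h
        simpa using h.2
      · rw [Finset.disjoint_left]
        intro y hy h
        obtain ⟨x, -, rfl⟩ := Finset.mem_image.1 h
        simp at hy⟩
  have a2 : (strTP (XU K16_down U)).rk (ZMod 3) 1 < Nat.card ((strTP (XU K16_down U)).S 2) := by
    rw [Nat.card_eq_fintype_card, ← Module.finrank_fintype_fun_eq_card (ZMod 3)]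
    apply Submodule.finrank_lt
    intro h
    obtain ⟨G, hG⟩ := LinearMap.range_eq_top.1 h fun s => if lo (s.1 0) = 3 then 1 else 0
    apply wt_spec2
    refine Eq.trans ?_ (wt_spec fun a b => Gx _ G (e16.symm (Sum.inl a)) (e16.symm (Sum.inl b)))
    refine Finset.sum_congr rfl fun k _ => ?_
    have := congrFun hG (sK k)
    rw [d_Gx] at this
    have e0 : (sK k).1 0 = e16.symm (Sum.inl (tri k).1) := rfl
    have e1 : (sK k).1 1 = e16.symm (Sum.inl (tri k).2.1) := rfl
    have e2 : (sK k).1 2 = e16.symm (Sum.inl (tri k).2.2) := rfl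
    rw [e0, e1, e2, lo_l] at this
    rw [this]
  omega

theorem main : ∃ C : Geometry.SimplicialComplex ℝ (EuclideanSpace ℝ (Fin 16)),
    C.faces.Finite ∧ Nonempty (ChartedSpace (EuclideanSpace ℝ (Fin 7)) C.space) ∧
    (∀ π, IsTightAt C.space π) ∧
    ∀ m : ℕ, ¬ IsPerfect (sd^[m] ⟨_, C.toPreAbstractSimplicialComplex⟩) :=
  ⟨TT K16, TT_finite _, TT_manifold e16 LL_down LL_empty LL_univ, TT_tight K16_down,
    TT_not_perfect K16_down all_le ex_lt⟩

end Pool.Agent.H937Z.Tight
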