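import Pool.Agent.Helper663.Sc.Prism

/-! A chain level retraction up to homotopy gives injectivity on singular homology. -/

set_option autoImplicit false

open CategoryTheory Limits AlgebraicTopology Simplicial
open Pool.Agent.Helper663.Sc

namespace Pool.Agent.H937Z.Tight

/-- The map `f` has a chain level left inverse up to chain homotopy. -/
def Retr {A X : Type} [TopologicalSpace A] [TopologicalSpace X] (f : C(A, X)) : Prop :=
  ∃ (ρ : ∀ n, (Sing X n →₀ ℤ) →ₗ[ℤ] (Sing A n →₀ ℤ))
    (h : ∀ n, (Sing A n →₀ ℤ) →ₗ[ℤ] (Sing A (n + 1) →₀ ℤ)),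
    (∀ n z, sbd A n (ρ (n + 1) z) = ρ n (sbd X n z)) ∧
    (∀ z, ρ 0 (cpush f 0 z) - z = sbd A 0 (h 0 z)) ∧
    (∀ n z, ρ (n + 1) (cpush f (n + 1) z) - z = sbd A (n + 1) (h (n + 1) z) + h n (sbd A n z))

section
variable (k : Type) [CommRing k]

/-- the singular chain complex of Mathlib -/
noncomputable abbrev CC (X : Type) [TopologicalSpace X] : ChainComplex (ModuleCat.{0} k) ℕ :=
  (TopCat.toSSet.obj (TopCat.of X)).chainComplex (ModuleCat.of k k)

noncomputable def toS {X : Type} [TopologicalSpace X] {n : ℕ} (σ : Sing X n) :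
    (TopCat.toSSet.obj (TopCat.of X)) _⦋n⦌ :=
  ((TopCat.of X).toSSetObjEquiv (Opposite.op ⦋n⦌)).symm σ

noncomputable def ofS {X : Type} [TopologicalSpace X] {n : ℕ}
    (s : (TopCat.toSSet.obj (TopCat.of X)) _⦋n⦌) : Sing X n :=
  ((TopCat.of X).toSSetObjEquiv (Opposite.op ⦋n⦌)) s

theorem toS_ofS {X : Type} [TopologicalSpace X] {n : ℕ}
    (s : (TopCat.toSSet.obj (TopCat.of X)) _⦋n⦌) : toS (ofS s) = s :=
  Equiv.symm_apply_apply _ s

theorem ofS_toS {X : Type} [TopologicalSpace X] {n : ℕ} (σ : Sing X n) : ofS (toS σ) = σ :=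
  Equiv.apply_symm_apply _ σ

theorem toS_face {X : Type} [TopologicalSpace X] {n : ℕ} (σ : Sing X (n + 1)) (i : Fin (n + 2)) :
    (TopCat.toSSet.obj (TopCat.of X)).δ i (toS σ) = toS (sface n i σ) := rfl

theorem toS_map {X Y : Type} [TopologicalSpace X] [TopologicalSpace Y] (f : C(X, Y)) {n : ℕ}
    (σ : Sing X n) :
    (TopCat.toSSet.map (TopCat.ofHom f)).app _ (toS σ) = toS (f.comp σ) := rfl

noncomputable def gen {X : Type} [TopologicalSpace X] {n : ℕ} (σ : Sing X n) : (CC k X).X n :=
  ((TopCat.toSSet.obj (TopCat.of X)).ιChainComplex (R := ModuleCat.of k k) (toS σ)).hom (1 : k)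

noncomputable def Th (X : Type) [TopologicalSpace X] (n : ℕ) :
    (Sing X n →₀ ℤ) →ₗ[ℤ] (CC k X).X n :=
  Finsupp.linearCombination ℤ (fun σ => gen k σ)

theorem Th_single {X : Type} [TopologicalSpace X] {n : ℕ} (σ : Sing X n) :
    Th k X n (Finsupp.single σ 1) = gen k σ := by
  simp [Th]

theorem hom_ext_gen {X : Type} [TopologicalSpace X] {n : ℕ} {M : ModuleCat.{0} k}
    (f g : (CC k X).X n ⟶ M) (h : ∀ σ : Sing X n, f.hom (gen k σ) = g.hom (gen k σ)) : f = g := by
  apply SSet.chainComplex_hom_ext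
  intro s
  apply ModuleCat.hom_ext
  apply LinearMap.ext_ring
  have := h (ofS s)
  rw [gen, toS_ofS] at this
  exact this

theorem map_Th {X : Type} [TopologicalSpace X] {n : ℕ} {M : ModuleCat.{0} k}
    (f : (CC k X).X n ⟶ M) (g : (Sing X n →₀ ℤ) →ₗ[ℤ] M)
    (h : ∀ σ : Sing X n, f.hom (gen k σ) = g (Finsupp.single σ 1)) (z : Sing X n →₀ ℤ) :
    f.hom (Th k X n z) = g z := by
  have : (f.hom.toAddMonoidHom.toIntLinearMap).comp (Th k X n) = g := by
    apply Finsupp.lhom_ext'
    intro σ
    apply LinearMap.ext_ring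
    simp only [LinearMap.comp_apply, Finsupp.lsingle_apply, Th_single]
    exact h σ
  exact LinearMap.congr_fun this z

theorem d_Th {X : Type} [TopologicalSpace X] {n : ℕ} (z : Sing X (n + 1) →₀ ℤ) :
    ((CC k X).d (n + 1) n).hom (Th k X (n + 1) z) = Th k X n (sbd X n z) := by
  apply map_Th k _ ((Th k X n).comp (sbd X n))
  intro σ
  have h := SSet.ιChainComplex_d (TopCat.toSSet.obj (TopCat.of X)) (ModuleCat.of k k) (toS σ)
  have h2 := congrArg (fun φ => φ.hom (1 : k)) h
  simp only [ModuleCat.hom_comp, LinearMap.comp_apply] at h2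
  rw [gen, h2, LinearMap.comp_apply, sbd, bd_single, map_sum]
  simp only [ModuleCat.hom_sum, LinearMap.sum_apply, ModuleCat.hom_zsmul, LinearMap.smul_apply,
    map_smul, Th_single, toS_face, gen]

theorem f_Th {X Y : Type} [TopologicalSpace X] [TopologicalSpace Y] (f : C(X, Y)) {n : ℕ}
    (z : Sing X n →₀ ℤ) :
    ((SSet.chainComplexMap (TopCat.toSSet.map (TopCat.ofHom f)) (ModuleCat.of k k)).f n).hom
      (Th k X n z) = Th k Y n (cpush f n z) := by
  apply map_Th k _ ((Th k Y n).comp (cpush f n))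
  intro σ
  have h := SSet.ι_chainComplexMap_f _ _ (TopCat.toSSet.map (TopCat.ofHom f)) (ModuleCat.of k k)
    (toS σ)
  have h2 := congrArg (fun φ => φ.hom (1 : k)) h
  simp only [ModuleCat.hom_comp, LinearMap.comp_apply] at h2
  rw [gen, h2, LinearMap.comp_apply, cpush_single, Th_single, toS_map, gen]

noncomputable def desc {X Y : Type} [TopologicalSpace X] [TopologicalSpace Y] {n m : ℕ}
    (T : (Sing X n →₀ ℤ) →ₗ[ℤ] (Sing Y m →₀ ℤ)) : (CC k X).X n ⟶ (CC k Y).X m :=
  Cofan.IsColimit.desc ((TopCat.toSSet.obj (TopCat.of X)).isColimitChainComplexXCofan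
    (ModuleCat.of k k) n)
    (fun s => ModuleCat.ofHom (LinearMap.toSpanSingleton k _
      (Th k Y m (T (Finsupp.single (ofS s) 1)))))

theorem desc_Th {X Y : Type} [TopologicalSpace X] [TopologicalSpace Y] {n m : ℕ}
    (T : (Sing X n →₀ ℤ) →ₗ[ℤ] (Sing Y m →₀ ℤ)) (z : Sing X n →₀ ℤ) :
    (desc k T).hom (Th k X n z) = Th k Y m (T z) := by
  apply map_Th k _ ((Th k Y m).comp T)
  intro σ
  have h := Cofan.IsColimit.fac ((TopCat.toSSet.obj (TopCat.of X)).isColimitChainComplexXCofan
    (ModuleCat.of k k) n)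
    (fun s => ModuleCat.ofHom (LinearMap.toSpanSingleton k _
      (Th k Y m (T (Finsupp.single (ofS s) 1))))) (toS σ)
  have h2 := congrArg (fun φ => φ.hom (1 : k)) h
  simp only [ModuleCat.hom_comp, LinearMap.comp_apply, ModuleCat.hom_ofHom,
    LinearMap.toSpanSingleton_apply, one_smul, ofS_toS] at h2
  exact h2

theorem hom_ext_Th {X : Type} [TopologicalSpace X] {n : ℕ} {M : ModuleCat.{0} k}
    (f g : (CC k X).X n ⟶ M) (h : ∀ z, f.hom (Th k X n z) = g.hom (Th k X n z)) : f = g := by
  apply hom_ext_gen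
  intro σ
  rw [← Th_single]
  exact h _

theorem Retr.injective {A X : Type} [TopologicalSpace A] [TopologicalSpace X] {f : C(A, X)}
    (hf : Retr f) (i : ℕ) : Function.Injective
    (((singularHomologyFunctor (ModuleCat.{0} k) i).obj (ModuleCat.of k k)).map
      (TopCat.ofHom f)) := by
  obtain ⟨ρ, h, h1, h2, h3⟩ := hf
  let φ : CC k A ⟶ CC k X :=
    SSet.chainComplexMap (TopCat.toSSet.map (TopCat.ofHom f)) (ModuleCat.of k k)
  let r : CC k X ⟶ CC k A :=
    { f := fun n => desc k (ρ n)
      comm' := by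
        intro a b hab
        obtain rfl : b + 1 = a := hab
        apply hom_ext_Th
        intro z
        simp only [ModuleCat.hom_comp, LinearMap.comp_apply]
        rw [desc_Th, d_Th, d_Th, desc_Th, h1] }
  let H : Homotopy (φ ≫ r) (𝟙 _) :=
    { hom := fun a b => if hab : a + 1 = b then desc k (h a) ≫ eqToHom (by rw [hab]) else 0
      zero := by
        intro a b hab
        exact dif_neg hab
      comm := by
        intro n
        rw [Homotopy.prevD_chainComplex]
        cases n with
        | zero =>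
          rw [Homotopy.dNext_zero_chainComplex]
          apply hom_ext_Th
          intro z
          simp only [HomologicalComplex.comp_f, HomologicalComplex.id_f, dif_pos, eqToHom_refl,
            Category.comp_id, zero_add, ModuleCat.hom_comp, ModuleCat.hom_add, ModuleCat.hom_id,
            LinearMap.comp_apply, LinearMap.add_apply, LinearMap.id_apply, φ, r]
          rw [f_Th, desc_Th, desc_Th, d_Th, ← h2, ← map_add, sub_add_cancel]
        | succ n =>
          rw [Homotopy.dNext_succ_chainComplex]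
          apply hom_ext_Th
          intro z
          simp only [HomologicalComplex.comp_f, HomologicalComplex.id_f, dif_pos, eqToHom_refl,
            Category.comp_id, ModuleCat.hom_comp, ModuleCat.hom_add, ModuleCat.hom_id,
            LinearMap.comp_apply, LinearMap.add_apply, LinearMap.id_apply, φ, r]
          rw [f_Th, desc_Th, desc_Th, d_Th, d_Th, desc_Th, ← map_add, ← map_add,
            add_comm (h n _), ← h3, sub_add_cancel] }
  have e := H.homologyMap_eq i
  rw [HomologicalComplex.homologyMap_comp, HomologicalComplex.homologyMap_id] at e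
  have e2 : Function.LeftInverse (HomologicalComplex.homologyMap r i).hom
      (HomologicalComplex.homologyMap φ i).hom := by
    intro x
    have := congrArg (fun ψ => ψ.hom x) e
    simpa using this
  exact e2.injective

end

end Pool.Agent.H937Z.Tight
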