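import Mathlib

/-! Definitions: abstract complexes, barycentric subdivision, mod 2 Betti numbers, discrete Morse
functions, perfect complexes, tight embeddings. -/

set_option autoImplicit false

open CategoryTheory

namespace Pool.Agent.H937Z.Tight

/-- An abstract simplicial complex together with its type of vertices. -/
abbrev Cx : Type 1 := Σ V : Type, PreAbstractSimplicialComplex V

/-- Barycentric subdivision: the vertices are the faces of `K`, the faces are the nonempty finite
chains (for inclusion) of faces of `K`. -/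
def sd (K : Cx) : Cx :=
  ⟨Finset K.1,
    { faces := {c | c.Nonempty ∧ (∀ σ ∈ c, σ ∈ K.2.faces) ∧ ∀ σ ∈ c, ∀ τ ∈ c, σ ⊆ τ ∨ τ ⊆ σ}
      isRelLowerSet_faces := fun _ h => ⟨h.1, fun _ hd hn =>
        ⟨hn, fun σ hσ => h.2.1 σ (hd hσ), fun σ hσ τ hτ => h.2.2 σ (hd hσ) τ (hd hτ)⟩⟩ }⟩

/-- The `i`-dimensional faces of `K`. -/
def Face (K : Cx) (i : ℕ) : Type := {σ : Finset K.1 // σ ∈ K.2.faces ∧ σ.card = i + 1}

open Classical in
/-- The facet of an `(i+1)`-face obtained by deleting one vertex. -/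
noncomputable def Face.del {K : Cx} {i : ℕ} (σ : Face K (i + 1)) (v : σ.1) : Face K i :=
  ⟨σ.1.erase v, (K.2.isRelLowerSet_faces σ.2.1).2 (Finset.erase_subset _ _)
      (Finset.card_pos.1 (by rw [Finset.card_erase_of_mem v.2, σ.2.2]; omega)),
    by rw [Finset.card_erase_of_mem v.2, σ.2.2]; rfl⟩

/-- The simplicial boundary map mod 2: a face goes to the sum of its facets. -/
noncomputable def bd (K : Cx) (i : ℕ) :
    (Face K (i + 1) →₀ ZMod 2) →ₗ[ZMod 2] (Face K i →₀ ZMod 2) :=
  Finsupp.linearCombination (ZMod 2) fun σ => ∑ v : σ.1, Finsupp.single (σ.del v) 1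

/-- Simplicial cycles mod 2. -/
noncomputable def cycles (K : Cx) : ∀ i : ℕ, Submodule (ZMod 2) (Face K i →₀ ZMod 2)
  | 0 => ⊤
  | i + 1 => LinearMap.ker (bd K i)

/-- The `i`-th (non-reduced) Betti number mod 2 of a finite complex: the dimension of the space of
`i`-cycles minus the dimension of the space of `i`-boundaries. -/
noncomputable def betti (K : Cx) (i : ℕ) : ℕ :=
  Module.finrank (ZMod 2) (cycles K i) - Module.finrank (ZMod 2) (LinearMap.range (bd K i))

/-- Forman's discrete Morse functions: each face has at most one cofacet with a value not larger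
and at most one facet with a value not smaller. -/
def IsMorse (K : Cx) (f : Finset K.1 → ℝ) : Prop :=
  ∀ σ ∈ K.2.faces,
    {τ | τ ∈ K.2.faces ∧ σ ⊆ τ ∧ τ.card = σ.card + 1 ∧ f τ ≤ f σ}.Subsingleton ∧
    {ν | ν ∈ K.2.faces ∧ ν ⊆ σ ∧ ν.card + 1 = σ.card ∧ f σ ≤ f ν}.Subsingleton

/-- Critical faces: all cofacets have a larger value, all facets have a smaller value. -/
def IsCritical (K : Cx) (f : Finset K.1 → ℝ) (σ : Finset K.1) : Prop :=
  (∀ τ ∈ K.2.faces, σ ⊆ τ → τ.card = σ.card + 1 → f σ < f τ) ∧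
  (∀ ν ∈ K.2.faces, ν ⊆ σ → ν.card + 1 = σ.card → f ν < f σ)

/-- `K` is perfect: some discrete Morse function has exactly `betti K i` critical `i`-faces, for
every `i`. -/
def IsPerfect (K : Cx) : Prop :=
  ∃ f : Finset K.1 → ℝ, IsMorse K f ∧
    ∀ i : ℕ, Nat.card {σ : Face K i // IsCritical K f σ.1} = betti K i

/-- `X` is `π`-tight: for every closed halfspace `h⁺ = {x | t ≤ ⟪π, x⟫}` and every `i`, the
inclusion `h⁺ ∩ X ⊆ X` is injective on the `i`-th singular homology with coefficients `ℤ/2`. -/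
def IsTightAt {k : ℕ} (X : Set (EuclideanSpace ℝ (Fin k))) (π : EuclideanSpace ℝ (Fin k)) : Prop :=
  ∀ (t : ℝ) (i : ℕ), Function.Injective
    (((AlgebraicTopology.singularHomologyFunctor (ModuleCat.{0} (ZMod 2)) i).obj
      (ModuleCat.of (ZMod 2) (ZMod 2))).map
      (TopCat.ofHom (ContinuousMap.inclusion
        (Set.inter_subset_right : {x | t ≤ inner ℝ π x} ∩ X ⊆ X))))

end Pool.Agent.H937Z.Tight
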