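import Pool.Agent.H937Z.Tight.TightZ
import Pool.Agent.H937Z.Tight.Defs

/-! The standard triangulation of the real moment-angle complex. -/

set_option autoImplicit false
set_option linter.unusedSectionVars false

open Finset

namespace Pool.Agent.H937Z.Tight

section
variable {ι : Type} [Fintype ι] [DecidableEq ι]

/-- the vertex of the cube given by a set of coordinates -/
noncomputable def chi (A : Finset ι) : EuclideanSpace ℝ ι :=
  WithLp.toLp 2 fun i => if i ∈ A then 1 else 0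

theorem chi_apply (A : Finset ι) (i : ι) : chi A i = if i ∈ A then 1 else 0 := rfl

theorem chi_inj : Function.Injective (chi : Finset ι → EuclideanSpace ℝ ι) := by
  intro A B h
  ext i
  have := congrArg (fun x : EuclideanSpace ℝ ι => x i) h
  simp only [chi_apply] at this
  by_cases h1 : i ∈ A <;> by_cases h2 : i ∈ B <;> simp_all

/-- `chi` as an embedding -/
noncomputable def chiE : Finset ι ↪ EuclideanSpace ℝ ι := ⟨chi, chi_inj⟩

/-- chains -/
def IsCh (𝒞 : Finset (Finset ι)) : Prop := ∀ A ∈ 𝒞, ∀ B ∈ 𝒞, A ⊆ B ∨ B ⊆ A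

theorem IsCh.sub_of_card {𝒞 : Finset (Finset ι)} (h : IsCh 𝒞) {A B : Finset ι} (hA : A ∈ 𝒞)
    (hB : B ∈ 𝒞) (hc : A.card ≤ B.card) : A ⊆ B := by
  rcases h A hA B hB with h1 | h1
  · exact h1
  · rw [Finset.eq_of_subset_of_card_le h1 hc]

theorem mem_conv {𝒞 : Finset (Finset ι)} {x : EuclideanSpace ℝ ι}
    (h : x ∈ convexHull ℝ ((𝒞.map chiE : Finset (EuclideanSpace ℝ ι)) : Set _)) :
    ∃ w : Finset ι → ℝ, (∀ A ∈ 𝒞, 0 ≤ w A) ∧ ∑ A ∈ 𝒞, w A = 1 ∧ ∑ A ∈ 𝒞, w A • chi A = x := by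
  obtain ⟨w, h1, h2, h3⟩ := Finset.mem_convexHull'.1 h
  rw [Finset.sum_map] at h2 h3
  exact ⟨fun A => w (chi A), fun A hA => h1 _ (Finset.mem_map_of_mem _ hA), h2, h3⟩

theorem coord_sum {𝒞 : Finset (Finset ι)} (w : Finset ι → ℝ) (i : ι) :
    (∑ A ∈ 𝒞, w A • chi A) i = ∑ A ∈ 𝒞.filter (fun A => i ∈ A), w A := by
  rw [Finset.sum_filter]
  simp only [WithLp.ofLp_sum, Finset.sum_apply, WithLp.ofLp_smul, Pi.smul_apply, chi_apply,
    smul_eq_mul, mul_ite, mul_one, mul_zero]

open Classical in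
/-- level sets -/
noncomputable def lev (x : ι → ℝ) (s : ℝ) : Finset ι := univ.filter fun i => s ≤ x i

theorem mem_lev {x : ι → ℝ} {s : ℝ} {i : ι} : i ∈ lev x s ↔ s ≤ x i := by simp [lev]

theorem lev_mem {𝒞 : Finset (Finset ι)} (hc : IsCh 𝒞) (w : Finset ι → ℝ)
    (h0 : ∀ A ∈ 𝒞, 0 ≤ w A) (h1 : ∑ A ∈ 𝒞, w A = 1) (x : ι → ℝ)
    (hx : ∀ i, x i = ∑ A ∈ 𝒞.filter (fun A => i ∈ A), w A) {s : ℝ} (hs0 : 0 < s) (hs1 : s ≤ 1) :
    lev x s ∈ 𝒞 := by
  classical
  let f : Finset ι → ℝ := fun D => ∑ A ∈ 𝒞.filter (fun A => D ⊆ A), w A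
  have hne : 𝒞.Nonempty := by
    rw [Finset.nonempty_iff_ne_empty]
    rintro rfl
    simp at h1
  obtain ⟨D0, hD0, hD0m⟩ := Finset.exists_min_image 𝒞 Finset.card hne
  have hf0 : f D0 = 1 := by
    rw [← h1]
    apply Finset.sum_congr _ fun _ _ => rfl
    exact Finset.filter_true_of_mem fun A hA => hc.sub_of_card hD0 hA (hD0m A hA)
  obtain ⟨D, hD, hDm⟩ := Finset.exists_max_image (𝒞.filter fun D => s ≤ f D) Finset.card
    ⟨D0, Finset.mem_filter.2 ⟨hD0, hf0 ▸ hs1⟩⟩
  rw [Finset.mem_filter] at hD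
  have : lev x s = D := by
    ext i
    rw [mem_lev]
    constructor
    · intro hi
      have hne2 : (𝒞.filter (fun A => i ∈ A)).Nonempty := by
        rw [Finset.nonempty_iff_ne_empty]
        intro e
        rw [hx, e] at hi
        simp at hi
        linarith
      obtain ⟨D', hD', hD'm⟩ := Finset.exists_min_image _ Finset.card hne2
      rw [Finset.mem_filter] at hD'
      have e : x i = f D' := by
        rw [hx]
        apply Finset.sum_congr _ fun _ _ => rfl
        ext A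
        simp only [Finset.mem_filter, and_congr_right_iff]
        intro hA
        exact ⟨fun h => hc.sub_of_card hD'.1 hA (hD'm A (Finset.mem_filter.2 ⟨hA, h⟩)),
          fun h => h hD'.2⟩
      exact hc.sub_of_card hD'.1 hD.1 (hDm D' (Finset.mem_filter.2 ⟨hD'.1, e ▸ hi⟩)) hD'.2
    · intro hi
      refine hD.2.trans ?_
      rw [hx]
      apply Finset.sum_le_sum_of_subset_of_nonneg
      · intro A hA
        rw [Finset.mem_filter] at hA ⊢
        exact ⟨hA.1, hA.2 hi⟩
      · intro A hA _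
        exact h0 A (Finset.mem_filter.1 hA).1
  rw [this]; exact hD.1

theorem pos_lev {𝒞 : Finset (Finset ι)} (hc : IsCh 𝒞) (w : Finset ι → ℝ)
    (h0 : ∀ A ∈ 𝒞, 0 ≤ w A) (h1 : ∑ A ∈ 𝒞, w A = 1) (x : ι → ℝ)
    (hx : ∀ i, x i = ∑ A ∈ 𝒞.filter (fun A => i ∈ A), w A) {B : Finset ι} (hB : B ∈ 𝒞)
    (hw : w B ≠ 0) : ∃ s, 0 < s ∧ s ≤ 1 ∧ lev x s = B := by
  classical
  have hw' : 0 < w B := lt_of_le_of_ne (h0 B hB) hw.symm
  have hBm : B ∈ 𝒞.filter (fun A => B ⊆ A) := Finset.mem_filter.2 ⟨hB, subset_rfl⟩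
  refine ⟨∑ A ∈ 𝒞.filter (fun A => B ⊆ A), w A, ?_, ?_, ?_⟩
  · exact hw'.trans_le (Finset.single_le_sum (fun A hA => h0 A (Finset.mem_filter.1 hA).1) hBm)
  · rw [← h1]
    exact Finset.sum_le_sum_of_subset_of_nonneg (Finset.filter_subset _ _) fun A hA _ => h0 A hA
  · ext i
    rw [mem_lev, hx]
    constructor
    · intro hi
      by_contra hiB
      have : ∑ A ∈ 𝒞.filter (fun A => i ∈ A), w A ≤
          ∑ A ∈ (𝒞.filter (fun A => B ⊆ A)).erase B, w A := by
        apply Finset.sum_le_sum_of_subset_of_nonneg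
        · intro A hA
          rw [Finset.mem_filter] at hA
          refine Finset.mem_erase.2 ⟨fun e => hiB (e ▸ hA.2), Finset.mem_filter.2 ⟨hA.1, ?_⟩⟩
          rcases hc A hA.1 B hB with h | h
          · exact absurd (h hA.2) hiB
          · exact h
        · intro A hA _
          exact h0 A (Finset.mem_filter.1 (Finset.mem_of_mem_erase hA)).1
      rw [← Finset.add_sum_erase _ _ hBm] at hi
      linarith
    · intro hi
      apply Finset.sum_le_sum_of_subset_of_nonneg
      · intro A hA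
        rw [Finset.mem_filter] at hA ⊢
        exact ⟨hA.1, hA.2 hi⟩
      · intro A hA _
        exact h0 A (Finset.mem_filter.1 hA).1

theorem indep_chain {𝒞 : Finset (Finset ι)} (hc : IsCh 𝒞) :
    AffineIndependent ℝ (fun A : 𝒞 => chi A.1) := by
  classical
  rw [affineIndependent_iff]
  intro s w h1 h2
  by_contra hne
  push Not at hne
  obtain ⟨e, he, hwe⟩ := hne
  obtain ⟨B, hB, hBm⟩ := Finset.exists_max_image (s.filter fun A => w A ≠ 0) (fun A => A.1.card)
    ⟨e, Finset.mem_filter.2 ⟨he, hwe⟩⟩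
  rw [Finset.mem_filter] at hB
  by_cases h : ((s.filter fun A => w A ≠ 0).erase B).Nonempty
  · obtain ⟨B', hB', hB'm⟩ := Finset.exists_max_image _ (fun A : 𝒞 => A.1.card) h
    rw [Finset.mem_erase] at hB'
    have hsub : B'.1 ⊆ B.1 := hc.sub_of_card B'.2 B.2 (hBm B' hB'.2)
    have hss : B'.1 ⊂ B.1 := ⟨hsub, fun h' => hB'.1 (Subtype.ext (subset_antisymm hsub h'))⟩
    obtain ⟨i, hi1, hi2⟩ := Finset.exists_of_ssubset hss
    have h3 := congrArg (fun x : EuclideanSpace ℝ ι => x i) h2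
    simp only [WithLp.ofLp_sum, Finset.sum_apply, WithLp.ofLp_smul, Pi.smul_apply, chi_apply,
      smul_eq_mul, WithLp.ofLp_zero, Pi.zero_apply] at h3
    rw [Finset.sum_eq_single B] at h3
    · rw [if_pos hi1, mul_one] at h3
      exact hB.2 h3
    · intro A hA hAB
      by_cases hwA : w A = 0
      · rw [hwA, zero_mul]
      · have : A.1 ⊆ B'.1 := hc.sub_of_card A.2 B'.2
          (hB'm A (Finset.mem_erase.2 ⟨hAB, Finset.mem_filter.2 ⟨hA, hwA⟩⟩))
        rw [if_neg fun h' => hi2 (this h'), mul_zero]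
    · intro h'; exact absurd hB.1 h'
  · rw [Finset.sum_eq_single B] at h1
    · exact hB.2 h1
    · intro A hA hAB
      by_contra hwA
      exact h ⟨A, Finset.mem_erase.2 ⟨hAB, Finset.mem_filter.2 ⟨hA, hwA⟩⟩⟩
    · intro h'; exact absurd hB.1 h'

/-- the faces of the triangulation, as chains of sets of coordinates -/
def GoodC (K : Finset ι → Prop) (𝒞 : Finset (Finset ι)) : Prop :=
  𝒞.Nonempty ∧ IsCh 𝒞 ∧ ∀ A ∈ 𝒞, ∀ B ∈ 𝒞, K (A \ B)

/-- the triangulation -/
noncomputable def TT (K : Finset ι → Prop) : Geometry.SimplicialComplex ℝ (EuclideanSpace ℝ ι) where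
  faces := {s | ∃ 𝒞, GoodC K 𝒞 ∧ s = 𝒞.map chiE}
  isRelLowerSet_faces := by
    rintro _ ⟨𝒞, h, rfl⟩
    refine ⟨Finset.map_nonempty.2 h.1, fun t ht hn => ?_⟩
    obtain ⟨𝒟, h1, rfl⟩ := Finset.subset_map_iff.1 ht
    exact ⟨𝒟, ⟨Finset.map_nonempty.1 hn, fun A hA B hB => h.2.1 A (h1 hA) B (h1 hB),
      fun A hA B hB => h.2.2 A (h1 hA) B (h1 hB)⟩, rfl⟩
  indep := by
    rintro _ ⟨𝒞, h, rfl⟩
    refine AffineIndependent.mono (s := ((𝒞.map chiE : Finset (EuclideanSpace ℝ ι)) : Set _))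
      (indep_chain h.2.1).range ?_
    intro x hx
    obtain ⟨A, hA, rfl⟩ := Finset.mem_map.1 hx
    exact ⟨⟨A, hA⟩, rfl⟩
  inter_subset_convexHull := by
    classical
    rintro _ _ ⟨𝒞, hC, rfl⟩ ⟨𝒟, hD, rfl⟩ x ⟨hx1, hx2⟩
    obtain ⟨w, w0, w1, w2⟩ := mem_conv hx1
    obtain ⟨v, v0, v1, v2⟩ := mem_conv hx2
    have e1 : ∑ A ∈ 𝒞.filter (fun A => w A ≠ 0), w A • chi A = x := by
      rw [← w2]
      apply Finset.sum_filter_of_ne
      intro A _ h h'
      rw [h', zero_smul] at h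
      exact h rfl
    rw [← e1]
    apply (convex_convexHull ℝ _).sum_mem
    · intro A hA; exact w0 A (Finset.mem_filter.1 hA).1
    · rw [Finset.sum_filter_ne_zero, w1]
    · intro A hA
      rw [Finset.mem_filter] at hA
      apply subset_convexHull
      refine ⟨Finset.mem_map_of_mem chiE hA.1, ?_⟩
      obtain ⟨s, s0, s1, hs⟩ := pos_lev hC.2.1 w w0 w1 x.ofLp
        (fun i => by rw [← w2, coord_sum]) hA.1 hA.2
      have := lev_mem hD.2.1 v v0 v1 x.ofLp (fun i => by rw [← v2, coord_sum]) s0 s1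
      rw [hs] at this
      exact Finset.mem_map_of_mem chiE this

theorem TT_finite (K : Finset ι → Prop) : (TT K).faces.Finite := by
  refine (Set.finite_range fun 𝒞 : Finset (Finset ι) => 𝒞.map chiE).subset ?_
  rintro _ ⟨𝒞, -, rfl⟩
  exact ⟨𝒞, rfl⟩

theorem mem_conv_lev (n : ℕ) : ∀ x : EuclideanSpace ℝ ι, (∀ i, 0 ≤ x i ∧ x i ≤ 1) →
    (frac x.ofLp).card = n →
    x ∈ convexHull ℝ {y | ∃ s, 0 < s ∧ s ≤ 1 ∧ y = chi (lev x.ofLp s)} := by
  induction n using Nat.strong_induction_on with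
  | _ n ih =>
  intro x hx hn
  by_cases hne : (frac x.ofLp).Nonempty
  · obtain ⟨j, hj, hjm⟩ := Finset.exists_min_image _ x.ofLp hne
    rw [mem_frac] at hj
    set a := x j with ha
    have h1a : 0 < 1 - a := by linarith [hj.2]
    have hdi : ∀ i, x i = 0 ∨ a ≤ x i := by
      intro i
      by_cases h0 : x i = 0
      · exact Or.inl h0
      · right
        by_cases h1 : x i = 1
        · rw [h1]; exact hj.2.le
        · exact hjm i (mem_frac.2 ⟨lt_of_le_of_ne (hx i).1 (Ne.symm h0),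
            lt_of_le_of_ne (hx i).2 h1⟩)
    let y : EuclideanSpace ℝ ι := WithLp.toLp 2 fun i => if a ≤ x i then (x i - a) / (1 - a) else 0
    have hy : ∀ i, y i = if a ≤ x i then (x i - a) / (1 - a) else 0 := fun i => rfl
    have hy01 : ∀ i, 0 ≤ y i ∧ y i ≤ 1 := by
      intro i
      rw [hy]
      split_ifs with h
      · exact ⟨div_nonneg (by linarith) h1a.le, by rw [div_le_one h1a]; linarith [(hx i).2]⟩
      · exact ⟨le_rfl, zero_le_one⟩
    have hss : frac y.ofLp ⊂ frac x.ofLp := by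
      refine ⟨fun i hi => ?_, fun h => ?_⟩
      · rw [mem_frac] at hi ⊢
        rw [hy] at hi
        split_ifs at hi with h
        · refine ⟨hj.1.trans_le h, ?_⟩
          have := hi.2
          rw [div_lt_one h1a] at this
          linarith
        · exact absurd hi.1 (lt_irrefl _)
      · have := mem_frac.1 (h (mem_frac.2 hj))
        rw [hy] at this
        simp [← ha] at this
    have h2 := ih _ (hn ▸ Finset.card_lt_card hss) y hy01 rfl
    have h3 : y ∈ convexHull ℝ {y | ∃ s, 0 < s ∧ s ≤ 1 ∧ y = chi (lev x.ofLp s)} := by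
      refine convexHull_mono ?_ h2
      rintro _ ⟨s, s0, s1, rfl⟩
      refine ⟨a + s * (1 - a), by nlinarith [hj.1], by nlinarith, ?_⟩
      congr 1
      ext i
      rw [mem_lev, mem_lev, hy]
      split_ifs with h
      · rw [le_div_iff₀ h1a]
        constructor <;> intro <;> linarith
      · constructor <;> intro h'
        · linarith
        · exact absurd (by nlinarith) h
    have h4 : chi (lev x.ofLp a) ∈
        convexHull ℝ {y | ∃ s, 0 < s ∧ s ≤ 1 ∧ y = chi (lev x.ofLp s)} :=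
      subset_convexHull _ _ ⟨a, hj.1, hj.2.le, rfl⟩
    have h5 := (convex_convexHull ℝ _) h4 h3 hj.1.le h1a.le (by ring)
    have e : a • chi (lev x.ofLp a) + (1 - a) • y = x := by
      ext i
      simp only [WithLp.ofLp_add, Pi.add_apply, WithLp.ofLp_smul, Pi.smul_apply, smul_eq_mul,
        chi_apply, mem_lev, hy]
      split_ifs with h
      · field_simp; ring
      · rcases hdi i with h' | h'
        · rw [h']; ring
        · exact absurd h' h
    rwa [e] at h5
  · apply subset_convexHull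
    refine ⟨1, one_pos, le_rfl, ?_⟩
    ext i
    rw [chi_apply]
    simp only [mem_lev]
    split_ifs with h
    · exact le_antisymm (hx i).2 h
    · by_contra h0
      exact hne ⟨i, mem_frac.2 ⟨lt_of_le_of_ne (hx i).1 (Ne.symm h0), not_le.1 h⟩⟩

theorem TT_space {K : Finset ι → Prop} (hK : ∀ S T, T ⊆ S → K S → K T)
    (x : EuclideanSpace ℝ ι) : x ∈ (TT K).space ↔ x.ofLp ∈ MM K := by
  classical
  rw [Geometry.SimplicialComplex.mem_space_iff]
  constructor
  · rintro ⟨_, ⟨𝒞, hC, rfl⟩, hx⟩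
    obtain ⟨w, w0, w1, w2⟩ := mem_conv hx
    have hx : ∀ i, x i = ∑ A ∈ 𝒞.filter (fun A => i ∈ A), w A := fun i => by rw [← w2, coord_sum]
    obtain ⟨A0, hA0, hA0m⟩ := Finset.exists_min_image 𝒞 Finset.card hC.1
    obtain ⟨A1, hA1, hA1m⟩ := Finset.exists_max_image 𝒞 Finset.card hC.1
    refine ⟨fun i => ?_, hK _ _ ?_ (hC.2.2 A1 hA1 A0 hA0)⟩
    · rw [hx]
      refine ⟨Finset.sum_nonneg fun A hA => w0 A (Finset.mem_filter.1 hA).1, ?_⟩
      rw [← w1]
      exact Finset.sum_le_sum_of_subset_of_nonneg (Finset.filter_subset _ _) fun A hA _ => w0 A hA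
    · intro i hi
      rw [mem_frac, hx] at hi
      rw [Finset.mem_sdiff]
      constructor
      · by_contra h
        have : 𝒞.filter (fun A => i ∈ A) = ∅ := Finset.filter_false_of_mem fun A hA h' =>
          h (hC.2.1.sub_of_card hA hA1 (hA1m A hA) h')
        rw [this] at hi
        simp at hi
      · intro h
        have : 𝒞.filter (fun A => i ∈ A) = 𝒞 := Finset.filter_true_of_mem fun A hA =>
          hC.2.1.sub_of_card hA0 hA (hA0m A hA) h
        rw [this, w1] at hi
        simp at hi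
  · intro hx
    let 𝒞 : Finset (Finset ι) := univ.filter fun A => ∃ s, 0 < s ∧ s ≤ 1 ∧ A = lev x.ofLp s
    have hm : ∀ A, A ∈ 𝒞 ↔ ∃ s, 0 < s ∧ s ≤ 1 ∧ A = lev x.ofLp s := fun A => by simp [𝒞]
    refine ⟨_, ⟨𝒞, ⟨⟨_, (hm _).2 ⟨1, one_pos, le_rfl, rfl⟩⟩, ?_, ?_⟩, rfl⟩, ?_⟩
    · intro A hA B hB
      obtain ⟨s, -, -, rfl⟩ := (hm _).1 hA
      obtain ⟨s', -, -, rfl⟩ := (hm _).1 hB
      rcases le_total s s' with h | h
      · right; intro i hi; rw [mem_lev] at hi ⊢; linarith
      · left; intro i hi; rw [mem_lev] at hi ⊢; linarith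
    · intro A hA B hB
      obtain ⟨s, s0, -, rfl⟩ := (hm _).1 hA
      obtain ⟨s', -, s1, rfl⟩ := (hm _).1 hB
      refine hK _ _ ?_ hx.2
      intro i hi
      rw [Finset.mem_sdiff, mem_lev, mem_lev] at hi
      rw [mem_frac]
      exact ⟨by linarith [hi.1], by linarith [not_le.1 hi.2]⟩
    · refine convexHull_mono ?_ (mem_conv_lev _ x hx.1 rfl)
      rintro _ ⟨s, s0, s1, rfl⟩
      exact Finset.mem_map_of_mem chiE ((hm _).2 ⟨s, s0, s1, rfl⟩)

/-- reflection of the coordinates outside `P` -/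
def flp (P : ι → Prop) [DecidablePred P] (x : ι → ℝ) : ι → ℝ := fun i => if P i then x i else 1 - x i

theorem flp_flp (P : ι → Prop) [DecidablePred P] (x : ι → ℝ) : flp P (flp P x) = x := by
  funext i; unfold flp; split_ifs <;> simp

theorem continuous_flp (P : ι → Prop) [DecidablePred P] : Continuous (flp (ι := ι) P) := by
  refine continuous_pi fun i => ?_
  unfold flp
  split_ifs
  · exact continuous_apply i
  · exact continuous_const.sub (continuous_apply i)

theorem flp_mem {K : Finset ι → Prop} (P : ι → Prop) [DecidablePred P] {x : ι → ℝ}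
    (hx : x ∈ MM K) : flp P x ∈ MM K := by
  refine ⟨fun i => ?_, ?_⟩
  · unfold flp
    split_ifs
    · exact hx.1 i
    · constructor <;> linarith [(hx.1 i).1, (hx.1 i).2]
  · have : frac (flp P x) = frac x := by
      ext i
      rw [mem_frac, mem_frac]
      unfold flp
      split_ifs
      · rfl
      · constructor <;> rintro ⟨h1, h2⟩ <;> constructor <;> linarith
    rw [this]; exact hx.2

end

theorem TT_tight {k : ℕ} {K : Finset (Fin k) → Prop} (hK : ∀ S T, T ⊆ S → K S → K T)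
    (π : EuclideanSpace ℝ (Fin k)) : IsTightAt (TT K).space π := by
  classical
  intro t i
  apply Retr.injective
  let P : Fin k → Prop := fun j => 0 ≤ π j
  let c : ℝ := ∑ j, if P j then 0 else π j
  have key : ∀ x : EuclideanSpace ℝ (Fin k),
      inner ℝ π x = c + ∑ j, |π j| * flp P x.ofLp j := by
    intro x
    rw [PiLp.inner_apply, ← Finset.sum_add_distrib]
    refine Finset.sum_congr rfl fun j _ => ?_
    unfold flp
    split_ifs with h
    · rw [abs_of_nonneg h]; simp [mul_comm]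
    · rw [abs_of_neg (not_le.1 h)]; simp [mul_comm]; ring
  have cf : Continuous fun x : EuclideanSpace ℝ (Fin k) => flp P x.ofLp :=
    (continuous_flp P).comp (PiLp.continuous_ofLp 2 _)
  refine (retr_incA hK (π := fun j => |π j|) (fun j => abs_nonneg _) (t - c)).transfer
    ⟨fun x => ⟨flp P x.1.ofLp, flp_mem P ((TT_space hK _).1 x.2.2), by
      have := x.2.1
      rw [Set.mem_setOf_eq, key] at this
      linarith⟩, (cf.comp continuous_subtype_val).subtype_mk _⟩
    ⟨fun u => ⟨WithLp.toLp 2 (flp P u.1), by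
      rw [Set.mem_setOf_eq, key]
      have := u.2.2
      simp only [flp_flp]
      linarith, (TT_space hK _).2 (flp_mem P u.2.1)⟩,
      ((PiLp.continuous_toLp 2 _).comp ((continuous_flp P).comp continuous_subtype_val)).subtype_mk _⟩
    ⟨fun x => ⟨flp P x.1.ofLp, flp_mem P ((TT_space hK _).1 x.2)⟩,
      (cf.comp continuous_subtype_val).subtype_mk _⟩ ?_ ?_
  · ext x j
    change flp P (flp P x.1.ofLp) j = x.1 j
    rw [flp_flp]
  · rfl

end Pool.Agent.H937Z.Tight
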