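import Pool.Agent.H937Z.Tight.Alg
import Pool.Agent.H937Z.Tight.Defs

/-! The weak Morse inequalities over any field, Betti numbers mod 2, subdivision invariance. -/

set_option autoImplicit false
set_option linter.unusedSectionVars false

open Pool.Agent.Helper663.Sc Module

namespace Pool.Agent.H937Z.Tight

section Abs
variable {P : Type} (F : Type) [Field F] (Q : TP P) (val : ∀ n, Q.S n → ℝ)

theorem card_dn_le (n : ℕ) [Finite (Q.S n)] [Finite (Q.S (n + 1))]
    (hinj : ∀ (t : Q.S (n + 1)) i j, Q.fc n i t = Q.fc n j t → i = j)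
    (M1 : ∀ (t t' : Q.S (n + 1)) i j, Q.fc n i t = Q.fc n j t' → val _ t ≤ val _ (Q.fc n i t) →
      val _ t' ≤ val _ (Q.fc n j t') → t = t')
    (M2 : ∀ (t : Q.S (n + 1)) i j, val _ t ≤ val _ (Q.fc n i t) → val _ t ≤ val _ (Q.fc n j t) →
      i = j) :
    Nat.card {t : Q.S (n + 1) // ∃ i, val _ t ≤ val _ (Q.fc n i t)} ≤ Q.rk F n := by
  classical
  have := Fintype.ofFinite (Q.S n)
  have := Fintype.ofFinite (Q.S (n + 1))
  let D := {t : Q.S (n + 1) // ∃ i, val _ t ≤ val _ (Q.fc n i t)}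
  have hI : ∀ t : D, ∃ i, val _ t.1 ≤ val _ (Q.fc n i t.1) := fun t => t.2
  choose I hI using hI
  let v : D → LinearMap.range (Q.d F n) := fun t =>
    ⟨Q.d F n (Pi.single (Q.fc n (I t) t.1) 1), LinearMap.mem_range_self _ _⟩
  have hli : LinearIndependent F v := by
    rw [Fintype.linearIndependent_iff]
    intro g hg
    by_contra hne
    push Not at hne
    obtain ⟨t1, ht1⟩ := hne
    obtain ⟨t0, ht0, hmin⟩ := Finset.exists_min_image (Finset.univ.filter fun t : D => g t ≠ 0)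
      (fun t => val _ (Q.fc n (I t) t.1)) ⟨t1, by simpa using ht1⟩
    rw [Finset.mem_filter] at ht0
    have h1 := congrFun (congrArg Subtype.val hg) t0.1
    simp only [AddSubmonoidClass.coe_finsetSum, SetLike.val_smul, Finset.sum_apply, Pi.smul_apply,
      smul_eq_mul, ZeroMemClass.coe_zero, Pi.zero_apply, v] at h1
    rw [Finset.sum_eq_single t0] at h1
    · rw [altd_apply, Finset.sum_eq_single (I t0)] at h1
      · simp only [Pi.single_eq_same, mul_one, mul_eq_zero, pow_eq_zero_iff', neg_eq_zero,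
          one_ne_zero, false_and, or_false] at h1
        exact ht0.2 h1
      · intro i _ hi
        rw [Pi.single_eq_of_ne fun e => hi (hinj _ _ _ e), mul_zero]
      · intro h; exact absurd (Finset.mem_univ _) h
    · intro t _ ht
      by_cases hg0 : g t = 0
      · rw [hg0, zero_mul]
      · rw [altd_apply, Finset.sum_eq_zero, mul_zero]
        intro i _
        rw [Pi.single_eq_of_ne, mul_zero]
        intro e
        have a1 := hmin t (by simpa using hg0)
        have a2 : val _ t0.1 ≤ val _ (Q.fc n i t0.1) := by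
          rw [e]; exact (hI t0).trans a1
        exact ht (Subtype.ext (M1 _ _ _ _ e.symm (hI t) a2))
    · intro h; exact absurd (Finset.mem_univ _) h
  rw [Nat.card_eq_fintype_card]
  exact hli.fintype_card_le_finrank

theorem card_up_le (n : ℕ) [Finite (Q.S (n + 1))]
    (M2 : ∀ (t : Q.S (n + 1)) i j, val _ t ≤ val _ (Q.fc n i t) → val _ t ≤ val _ (Q.fc n j t) →
      i = j) :
    Nat.card {s : Q.S n // ∃ t i, Q.fc n i t = s ∧ val _ t ≤ val _ s} ≤
      Nat.card {t : Q.S (n + 1) // ∃ i, val _ t ≤ val _ (Q.fc n i t)} := by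
  have h : ∀ s : {s : Q.S n // ∃ t i, Q.fc n i t = s ∧ val _ t ≤ val _ s},
      ∃ t i, Q.fc n i t = s.1 ∧ val _ t ≤ val _ s.1 := fun s => s.2
  choose T I h1 h2 using h
  refine Nat.card_le_card_of_injective (fun s => ⟨T s, I s, by rw [h1]; exact h2 s⟩) ?_
  intro s s' e
  have e' : T s = T s' := congrArg Subtype.val e
  apply Subtype.ext
  have : I s = I s' := M2 (T s) _ _ (by rw [h1]; exact h2 s) (by rw [e', h1]; exact h2 s')
  rw [← h1, ← h1, e', this]

theorem card_cover {α : Type} [Finite α] (p q r : α → Prop) (h : ∀ a, p a ∨ q a ∨ r a) :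
    Nat.card α ≤ Nat.card {a // p a} + Nat.card {a // q a} + Nat.card {a // r a} := by
  rw [← Nat.card_sum, ← Nat.card_sum]
  refine Nat.card_le_card_of_surjective
    (Sum.elim (Sum.elim Subtype.val Subtype.val) Subtype.val) fun a => ?_
  rcases h a with h | h | h
  · exact ⟨Sum.inl (Sum.inl ⟨a, h⟩), rfl⟩
  · exact ⟨Sum.inl (Sum.inr ⟨a, h⟩), rfl⟩
  · exact ⟨Sum.inr ⟨a, h⟩, rfl⟩

end Abs

theorem TP.ext' {P : Type} {Q Q' : TP P} (h : ∀ n c, Q.R n c ↔ Q'.R n c) : Q = Q' := by
  obtain ⟨R, hR⟩ := Q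
  obtain ⟨R', hR'⟩ := Q'
  have : R = R' := by
    funext n c
    exact propext (h n c)
  subst this
  rfl

section Cplx
variable {V : Type}

/-- all tuples inside a face -/
def tupTP (K : PreAbstractSimplicialComplex V) : TP V where
  R _ c := ∃ σ ∈ K.faces, ∀ i, c i ∈ σ
  face _ _ _ := fun ⟨σ, h1, h2⟩ => ⟨σ, h1, fun _ => h2 _⟩

/-- increasing tuples inside a face -/
def strTP [PartialOrder V] (K : PreAbstractSimplicialComplex V) : TP V where
  R _ c := StrictMono c ∧ ∃ σ ∈ K.faces, ∀ i, c i ∈ σ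
  face _ i _ := fun ⟨h, σ, h1, h2⟩ => ⟨h.comp (Fin.strictMono_succAbove i), σ, h1, fun _ => h2 _⟩

/-- chains of faces -/
def chTP (K : PreAbstractSimplicialComplex V) : TP (Finset V) where
  R _ c := StrictMono c ∧ ∀ i, c i ∈ K.faces
  face _ i _ := fun ⟨h, h2⟩ => ⟨h.comp (Fin.strictMono_succAbove i), fun _ => h2 _⟩

theorem cons_sm {P : Type} [PartialOrder P] {n : ℕ} (c : Fin (n + 1) → P)
    (hc : StrictMono c) (J : P) (hJ : J < c 0) :
    StrictMono (Fin.cons J c : Fin (n + 2) → P) := by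
  rw [Fin.strictMono_iff_lt_succ]
  intro i
  refine Fin.cases ?_ (fun i => ?_) i
  · simpa using hJ
  · have h1 : (Fin.cons J c : Fin (n + 2) → P) (i.succ).succ = c i.succ := by simp
    have h2 : (Fin.cons J c : Fin (n + 2) → P) (i.succ).castSucc = c i.castSucc := by
      rw [← Fin.succ_castSucc]; simp
    rw [h1, h2]
    exact hc Fin.castSucc_lt_succ

open Classical in
/-- the set of entries -/
noncomputable def img {n : ℕ} (c : Fin n → V) : Finset V := Finset.univ.image c

theorem mem_img {n : ℕ} {c : Fin n → V} {v : V} : v ∈ img c ↔ ∃ i, c i = v := by simp [img]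

theorem img_face (K : PreAbstractSimplicialComplex V) {n : ℕ} {c : Fin (n + 1) → V}
    (h : ∃ σ ∈ K.faces, ∀ i, c i ∈ σ) : img c ∈ K.faces := by
  obtain ⟨σ, h1, h2⟩ := h
  refine (K.isRelLowerSet_faces h1).2 ?_ ⟨c 0, mem_img.2 ⟨0, rfl⟩⟩
  intro v hv
  obtain ⟨i, rfl⟩ := mem_img.1 hv
  exact h2 i

variable (F : Type) [Field F]

theorem row_acyc (K : PreAbstractSimplicialComplex V) {q : ℕ} {s : Fin (q + 1) → V}
    (h : ∃ σ ∈ K.faces, ∀ i, s i ∈ σ) : (chTP K).Acyc F fun σ => ∀ j, s j ∈ σ := by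
  have hsub : ∀ σ : Finset V, (∀ j, s j ∈ σ) → img s ⊆ σ := by
    intro σ hσ v hv
    obtain ⟨i, rfl⟩ := mem_img.1 hv
    exact hσ i
  refine TP.acyc_of_cone F _ _ (fun σ => σ = img s) (img s) (fun j => mem_img.2 ⟨j, rfl⟩)
    ⟨Subsingleton.strictMono (α := Fin 1) _, fun _ => img_face K h⟩ ?_ ?_ fun _ h => h
  · intro n c hc hW hD
    refine ⟨cons_sm c hc.1 _ (lt_of_le_of_ne (hsub _ (hW 0)) (Ne.symm hD)), fun i => ?_⟩
    refine Fin.cases ?_ (fun i => ?_) i
    · simpa using img_face K h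
    · simpa using hc.2 i
  · intro n c hc hW hD
    have a1 : c 0 < c 1 := hc.1 (by simp)
    exact absurd (hD ▸ hsub _ (hW 0) : c 1 ≤ c 0) (not_le_of_gt a1)

theorem b_tup (K : PreAbstractSimplicialComplex V) (n : ℕ) :
    (tupTP K).b F n = (chTP K).b F n := by
  refine b_eq_of_acyc F _ _ (fun σ v => v ∈ σ) (fun q s => row_acyc F K s.2) (fun p c => ?_) n
  obtain ⟨v, hv⟩ := (K.isRelLowerSet_faces (c.2.2 0)).1
  refine TP.acyc_of_cone F _ _ (fun _ => False) v
    (fun i => c.2.1.monotone (Fin.zero_le i) hv) ⟨_, c.2.2 0, fun _ => hv⟩ ?_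
    (fun _ _ _ _ h => h) fun _ h => h.elim
  intro n a _ hW _
  refine ⟨_, c.2.2 0, fun i => ?_⟩
  refine Fin.cases ?_ (fun i => ?_) i
  · simpa using hv
  · simpa using hW i 0

variable [PartialOrder V] (K : PreAbstractSimplicialComplex V)
  (hch : ∀ σ ∈ K.faces, ∀ u ∈ σ, ∀ v ∈ σ, u ≤ v ∨ v ≤ u)

include hch in
theorem b_str (n : ℕ) : (strTP K).b F n = (chTP K).b F n := by
  refine b_eq_of_acyc F (chTP K) (strTP K) (fun σ v => v ∈ σ) (fun q s => row_acyc F K s.2.2)
    (fun p c => ?_) n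
  obtain ⟨v, hv⟩ := Finset.exists_minimal (K.isRelLowerSet_faces (c.2.2 0)).1
  have hle : ∀ u ∈ c.1 0, v ≤ u := fun u hu => by
    rcases hch _ (c.2.2 0) u hu v hv.1 with h | h
    · exact hv.2 hu h
    · exact h
  refine TP.acyc_of_cone F _ _ (fun u => u = v) v
    (fun i => c.2.1.monotone (Fin.zero_le i) hv.1)
    ⟨Subsingleton.strictMono (α := Fin 1) _, _, c.2.2 0, fun _ => hv.1⟩ ?_ ?_ fun _ h => h
  · intro n a ha hW hD
    refine ⟨cons_sm a ha.1 _ (lt_of_le_of_ne (hle _ (hW 0 0)) (Ne.symm hD)), _, c.2.2 0,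
      fun i => ?_⟩
    refine Fin.cases ?_ (fun i => ?_) i
    · simpa using hv.1
    · simpa using hW i 0
  · intro n a ha hW hD
    have a1 : a 0 < a 1 := ha.1 (by simp)
    exact absurd (hD ▸ hle _ (hW 0 0) : a 1 ≤ a 0) (not_le_of_gt a1)

omit [PartialOrder V] in
theorem strTP_sd : strTP (V := Finset V) (sd ⟨V, K⟩).2 = chTP K := by
  apply TP.ext'
  intro n c
  constructor
  · rintro ⟨h, σ, h1, h2⟩
    exact ⟨h, fun i => h1.2.1 _ (h2 i)⟩
  · rintro ⟨h, h2⟩
    refine ⟨h, img c, ⟨⟨c 0, mem_img.2 ⟨0, rfl⟩⟩, ?_, ?_⟩, fun i => mem_img.2 ⟨i, rfl⟩⟩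
    · intro σ hσ
      obtain ⟨i, rfl⟩ := mem_img.1 hσ
      exact h2 i
    · intro σ hσ τ hτ
      obtain ⟨i, rfl⟩ := mem_img.1 hσ
      obtain ⟨j, rfl⟩ := mem_img.1 hτ
      rcases le_total i j with e | e
      · exact Or.inl (h.monotone e)
      · exact Or.inr (h.monotone e)

theorem card_img {n : ℕ} {c : Fin n → V} (h : StrictMono c) : (img c).card = n := by
  classical
  unfold img
  convert (Finset.card_image_of_injective Finset.univ h.injective).trans (Finset.card_fin n)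

/-- the face spanned by an increasing tuple -/
noncomputable def toFace (n : ℕ) (s : (strTP K).S n) : Face ⟨V, K⟩ n :=
  ⟨img s.1, img_face K s.2.2, card_img s.2.1⟩

theorem toFace_inj (n : ℕ) : Function.Injective (toFace K n) := by
  intro s t h
  have h1 : img s.1 = img t.1 := congrArg Subtype.val h
  apply Subtype.ext
  rw [← s.2.1.range_inj t.2.1]
  ext v
  rw [Set.mem_range, Set.mem_range, ← mem_img, ← mem_img, h1]

include hch in
theorem toFace_surj (n : ℕ) : Function.Surjective (toFace K n) := by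
  classical
  rintro ⟨σ, h1, h2⟩
  letI : LinearOrder σ :=
    { Subtype.partialOrder _ with
      le_total := fun a b => hch σ h1 a.1 a.2 b.1 b.2
      toDecidableLE := Classical.decRel _ }
  let e := monoEquivOfFin σ (k := n + 1) (by simpa using h2)
  refine ⟨⟨fun i => (e i).1, fun a b hab => e.strictMono hab, σ, h1, fun i => (e i).2⟩, ?_⟩
  apply Subtype.ext
  ext v
  change v ∈ img _ ↔ v ∈ σ
  rw [mem_img]
  constructor
  · rintro ⟨i, rfl⟩; exact (e i).2
  · intro hv
    exact ⟨e.symm ⟨v, hv⟩, by simp⟩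

open Classical in
theorem img_fc {n : ℕ} (t : (strTP K).S (n + 1)) (i : Fin (n + 2)) :
    img ((strTP K).fc n i t).1 = (img t.1).erase (t.1 i) := by
  ext v
  rw [Finset.mem_erase, mem_img, mem_img]
  constructor
  · rintro ⟨j, rfl⟩
    exact ⟨fun e => Fin.succAbove_ne i j (t.2.1.injective e), _, rfl⟩
  · rintro ⟨h, j, rfl⟩
    obtain ⟨j', rfl⟩ := Fin.exists_succAbove_eq (x := j) (y := i) fun e => h (by rw [e])
    exact ⟨j', rfl⟩

theorem fc_of_sub {n : ℕ} (t : (strTP K).S (n + 1)) (ν : Finset V) (h1 : ν ⊆ img t.1)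
    (h2 : ν.card = n + 1) : ∃ i, img ((strTP K).fc n i t).1 = ν := by
  classical
  have hss : ν ⊂ img t.1 := ⟨h1, fun h => by
    have := Finset.card_le_card h
    rw [card_img t.2.1] at this
    omega⟩
  obtain ⟨v, hv1, hv2⟩ := Finset.exists_of_ssubset hss
  obtain ⟨i, rfl⟩ := mem_img.1 hv1
  refine ⟨i, (Finset.eq_of_subset_of_card_le ?_ ?_).symm⟩
  · rw [img_fc]
    intro x hx
    exact Finset.mem_erase.2 ⟨fun e => hv2 (e ▸ hx), h1 hx⟩
  · rw [card_img ((strTP K).fc n i t).2.1, h2]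

theorem fc_inj {n : ℕ} (t : (strTP K).S (n + 1)) (i j : Fin (n + 2))
    (h : img ((strTP K).fc n i t).1 = img ((strTP K).fc n j t).1) : i = j := by
  classical
  rw [img_fc, img_fc] at h
  exact t.2.1.injective (Finset.erase_injOn _ (mem_img.2 ⟨i, rfl⟩) (mem_img.2 ⟨j, rfl⟩) h)

theorem img_fc_sub {n : ℕ} (t : (strTP K).S (n + 1)) (i : Fin (n + 2)) :
    img ((strTP K).fc n i t).1 ⊆ img t.1 := by
  classical
  rw [img_fc]; exact Finset.erase_subset _ _

omit [PartialOrder V] in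
theorem face_finite (hfin : K.faces.Finite) (n : ℕ) : Finite (Face ⟨V, K⟩ n) :=
  (hfin.subset (fun _ h => h.1 : {σ | σ ∈ K.faces ∧ σ.card = n + 1} ⊆ K.faces)).to_subtype

theorem str_finite (hfin : K.faces.Finite) (n : ℕ) : Finite ((strTP K).S n) :=
  have := face_finite K hfin n
  Finite.of_injective _ (toFace_inj K n)

include hch in
theorem morse_ineq (hfin : K.faces.Finite) (f : Finset V → ℝ) (hf : IsMorse ⟨V, K⟩ f) (n : ℕ) :
    (strTP K).b F (n + 1) ≤ Nat.card {σ : Face ⟨V, K⟩ (n + 1) // IsCritical ⟨V, K⟩ f σ.1} := by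
  have := str_finite K hfin
  have := face_finite K hfin
  let val : ∀ n, (strTP K).S n → ℝ := fun n s => f (img s.1)
  have hinj : ∀ n (t : (strTP K).S (n + 1)) i j, (strTP K).fc n i t = (strTP K).fc n j t →
      i = j := fun n t i j h => fc_inj K t i j (by rw [h])
  have M1 : ∀ n (t t' : (strTP K).S (n + 1)) i j, (strTP K).fc n i t = (strTP K).fc n j t' →
      val _ t ≤ val _ ((strTP K).fc n i t) → val _ t' ≤ val _ ((strTP K).fc n j t') → t = t' := by
    intro n t t' i j h h1 h2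
    apply toFace_inj K
    apply Subtype.ext
    have c1 := card_img ((strTP K).fc n i t).2.1
    refine (hf _ (img_face K ((strTP K).fc n i t).2.2)).1
      ⟨img_face K t.2.2, img_fc_sub K t i, ?_, h1⟩ ⟨img_face K t'.2.2, ?_, ?_, ?_⟩
    · rw [c1]; exact card_img t.2.1
    · rw [h]; exact img_fc_sub K t' j
    · rw [c1]; exact card_img t'.2.1
    · rw [h]; exact h2
  have M2 : ∀ n (t : (strTP K).S (n + 1)) i j, val _ t ≤ val _ ((strTP K).fc n i t) →
      val _ t ≤ val _ ((strTP K).fc n j t) → i = j := by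
    intro n t i j h1 h2
    apply fc_inj K t
    refine (hf _ (img_face K t.2.2)).2
      ⟨img_face K ((strTP K).fc n i t).2.2, img_fc_sub K t i, ?_, h1⟩
      ⟨img_face K ((strTP K).fc n j t).2.2, img_fc_sub K t j, ?_, h2⟩
    · rw [card_img t.2.1, card_img ((strTP K).fc n i t).2.1]
    · rw [card_img t.2.1, card_img ((strTP K).fc n j t).2.1]
  have a1 := card_dn_le F _ val n (hinj n) (M1 n) (M2 n)
  have a2 := card_dn_le F _ val (n + 1) (hinj _) (M1 _) (M2 _)
  have a3 := card_up_le _ val (n + 1) (M2 _)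
  have a4 := card_cover (fun s : (strTP K).S (n + 1) => IsCritical ⟨V, K⟩ f (img s.1))
    (fun t => ∃ i, val _ t ≤ val _ ((strTP K).fc n i t))
    (fun s => ∃ t i, (strTP K).fc (n + 1) i t = s ∧ val _ t ≤ val _ s) (by
      intro s
      by_contra hc
      push Not at hc
      refine hc.1 ⟨fun τ hτ h1 h2 => ?_, fun ν _ h1 h2 => ?_⟩
      · rw [card_img s.2.1] at h2
        obtain ⟨t, ht⟩ := toFace_surj K hch (n + 1 + 1) ⟨τ, hτ, h2⟩
        have ht' : img t.1 = τ := congrArg Subtype.val ht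
        obtain ⟨i, hi⟩ := fc_of_sub K t (img s.1) (ht' ▸ h1) (card_img s.2.1)
        have := hc.2.2 t i (toFace_inj K _ (Subtype.ext hi))
        rw [← ht']
        exact this
      · rw [card_img s.2.1] at h2
        obtain ⟨i, hi⟩ := fc_of_sub K s ν h1 (by omega)
        rw [← hi]
        exact hc.2.1 i)
  have a5 : Nat.card {s : (strTP K).S (n + 1) // IsCritical ⟨V, K⟩ f (img s.1)} ≤
      Nat.card {σ : Face ⟨V, K⟩ (n + 1) // IsCritical ⟨V, K⟩ f σ.1} :=
    Nat.card_le_card_of_injective (fun s => ⟨toFace K _ s.1, s.2⟩) fun s s' e =>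
      Subtype.ext (toFace_inj K _ (congrArg Subtype.val e))
  have a6 := (strTP K).b_add_rk F n
  have a7 := (strTP K).rk_add_z F (n + 1)
  omega

include hch in
theorem rank_bd (hfin : K.faces.Finite) (n : ℕ) :
    finrank (ZMod 2) (LinearMap.range (bd ⟨V, K⟩ n)) = (strTP K).rk (ZMod 2) n := by
  classical
  have := str_finite K hfin
  have := face_finite K hfin
  have := fun n => Fintype.ofFinite ((strTP K).S n)
  let eF : ∀ n, (strTP K).S n ≃ Face ⟨V, K⟩ n := fun n =>
    Equiv.ofBijective _ ⟨toFace_inj K n, toFace_surj K hch n⟩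
  let E : ∀ n, (Face ⟨V, K⟩ n →₀ ZMod 2) ≃ₗ[ZMod 2] ((strTP K).S n → ZMod 2) := fun n =>
    (Finsupp.linearEquivFunOnFinite (ZMod 2) (ZMod 2) _).trans
      (LinearEquiv.funCongrLeft (ZMod 2) (ZMod 2) (eF n))
  have hE : ∀ n c s, E n c s = c (toFace K n s) := fun _ _ _ => rfl
  let B : Matrix ((strTP K).S n) ((strTP K).S (n + 1)) (ZMod 2) := fun s t =>
    ∑ i, if (strTP K).fc n i t = s then 1 else 0
  have h1 : (strTP K).d (ZMod 2) n = B.transpose.mulVecLin := by
    apply LinearMap.ext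
    intro g
    funext t
    rw [altd_apply]
    simp only [Matrix.mulVecLin_apply, Matrix.mulVec, dotProduct, Matrix.transpose_apply, B,
      Finset.sum_mul]
    rw [Finset.sum_comm]
    refine Finset.sum_congr rfl fun i _ => ?_
    have : (-1 : ZMod 2) = 1 := rfl
    simp [this]
  have h2 : (E n).toLinearMap.comp (bd ⟨V, K⟩ n) = B.mulVecLin.comp (E (n + 1)).toLinearMap := by
    apply Finsupp.lhom_ext'
    intro σ
    apply LinearMap.ext_ring
    obtain ⟨t, rfl⟩ := toFace_surj K hch _ σ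
    funext s
    simp only [LinearMap.comp_apply, Finsupp.lsingle_apply, LinearEquiv.coe_coe, hE, bd,
      Finsupp.linearCombination_single, one_smul, Matrix.mulVecLin_apply, Matrix.mulVec,
      dotProduct]
    rw [Finset.sum_eq_single t]
    · rw [Finsupp.single_eq_same, mul_one, Finsupp.finsetSum_apply]
      symm
      refine Fintype.sum_bijective (fun i => (⟨t.1 i, mem_img.2 ⟨i, rfl⟩⟩ : (toFace K _ t).1))
        ⟨fun i j e => t.2.1.injective (congrArg Subtype.val e), fun v => ?_⟩ _ _ fun i => ?_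
      · obtain ⟨i, hi⟩ := mem_img.1 v.2
        exact ⟨i, Subtype.ext hi⟩
      · have : (toFace K _ t).del ⟨t.1 i, mem_img.2 ⟨i, rfl⟩⟩ = toFace K n ((strTP K).fc n i t) :=
          Subtype.ext (img_fc K t i).symm
        rw [this, Finsupp.single_apply]
        simp only [(toFace_inj K n).eq_iff]
    · intro t' _ ht'
      rw [Finsupp.single_eq_of_ne fun e => ht' (toFace_inj K _ e), mul_zero]
    · intro h; exact absurd (Finset.mem_univ _) h
  have h3 : finrank (ZMod 2) (LinearMap.range (bd ⟨V, K⟩ n)) = B.rank := by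
    rw [Matrix.rank, ← LinearEquiv.finrank_map_eq (E n), ← LinearMap.range_comp, h2,
      LinearMap.range_comp, LinearEquiv.range, Submodule.map_top]
  rw [h3, TP.rk, h1, ← Matrix.rank_transpose]
  rfl

include hch in
theorem betti_eq (hfin : K.faces.Finite) (n : ℕ) :
    betti ⟨V, K⟩ (n + 1) = (strTP K).b (ZMod 2) (n + 1) := by
  have := str_finite K hfin
  have := face_finite K hfin
  have a1 := rank_bd K hch hfin n
  have a2 := rank_bd K hch hfin (n + 1)
  have a3 := LinearMap.finrank_range_add_finrank_ker (bd ⟨V, K⟩ n)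
  have := Fintype.ofFinite (Face ⟨V, K⟩ (n + 1))
  rw [Module.finrank_finsupp_self, ← Nat.card_eq_fintype_card, ← Nat.card_congr
    (Equiv.ofBijective _ ⟨toFace_inj K (n + 1), toFace_surj K hch (n + 1)⟩)] at a3
  have a6 := (strTP K).b_add_rk (ZMod 2) n
  have a7 := (strTP K).rk_add_z (ZMod 2) (n + 1)
  change finrank (ZMod 2) (LinearMap.ker (bd ⟨V, K⟩ n)) - _ = _
  omega

end Cplx

theorem not_perfect (n m : ℕ) : ∀ (V : Type) [PartialOrder V] (K : PreAbstractSimplicialComplex V),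
    (∀ σ ∈ K.faces, ∀ u ∈ σ, ∀ v ∈ σ, u ≤ v ∨ v ≤ u) → K.faces.Finite →
    (strTP K).b (ZMod 2) (n + 1) < (strTP K).b (ZMod 3) (n + 1) → ¬ IsPerfect (sd^[m] ⟨V, K⟩) := by
  induction m with
  | zero =>
    intro V _ K hch hfin hlt ⟨f, hf, hc⟩
    have a1 := morse_ineq (ZMod 3) K hch hfin f hf n
    have a2 := hc (n + 1)
    have a3 := betti_eq K hch hfin n
    change Nat.card {σ : Face ⟨V, K⟩ (n + 1) // IsCritical ⟨V, K⟩ f σ.1} = betti ⟨V, K⟩ (n + 1) at a2
    omega
  | succ m ih =>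
    intro V _ K hch hfin hlt
    rw [Function.iterate_succ_apply]
    refine ih (Finset V) (sd ⟨V, K⟩).2 (fun c hc => hc.2.2) ?_ ?_
    · refine (Set.Finite.preimage Finset.coe_injective.injOn hfin.finite_subsets).subset ?_
      intro c hc
      exact hc.2.1
    · rw [strTP_sd, ← b_str _ K hch, ← b_str _ K hch]
      exact hlt

end Pool.Agent.H937Z.Tight
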