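import Pool.Agent.H937Z.Tight.Morse
import Pool.Agent.H937Z.Tight.Geo

/-! Splitting of the cochain complex of the triangulated real moment-angle complex. -/

set_option autoImplicit false
set_option linter.unusedSectionVars false

open Pool.Agent.Helper663.Sc Module Finset

namespace Pool.Agent.H937Z.Tight

section
variable {ι : Type} [Fintype ι] [DecidableEq ι] (F : Type) [Field F] (K : Finset ι → Prop)

/-- simplices of the triangulation as chains -/
def TPc : TP (Finset ι) where
  R _ c := StrictMono c ∧ ∀ i j, K (c i \ c j)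
  face _ i _ := fun ⟨h, h2⟩ => ⟨h.comp (Fin.strictMono_succAbove i), fun _ _ => h2 _ _⟩

instance TP.finite_S {P : Type} [Finite P] (Q : TP P) (n : ℕ) : Finite (Q.S n) :=
  inferInstanceAs (Finite {c : Fin (n + 1) → P // Q.R n c})

open Classical in
/-- extension by zero -/
noncomputable def extL (n : ℕ) : ((TPc K).S n → F) →ₗ[F] ((Fin (n + 1) → Finset ι) → F) where
  toFun f c := if h : (TPc K).R n c then f ⟨c, h⟩ else 0
  map_add' f g := by funext c; simp only [Pi.add_apply]; split_ifs <;> simp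
  map_smul' a f := by funext c; simp only [Pi.smul_apply]; split_ifs <;> simp

theorem extL_pos {n : ℕ} (f : (TPc K).S n → F) (c : Fin (n + 1) → Finset ι) (h : (TPc K).R n c) :
    extL F K n f c = f ⟨c, h⟩ := dif_pos h

theorem extL_neg {n : ℕ} (f : (TPc K).S n → F) (c : Fin (n + 1) → Finset ι) (h : ¬ (TPc K).R n c) :
    extL F K n f c = 0 := dif_neg h

theorem ext_d {n : ℕ} (f : (TPc K).S n → F) (c : Fin (n + 2) → Finset ι) (hm : Monotone c)
    (hk : ∀ i j, K (c i \ c j)) :
    extL F K (n + 1) ((TPc K).d F n f) c =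
      ∑ i : Fin (n + 2), (-1 : F) ^ (i : ℕ) * extL F K n f (c ∘ i.succAbove) := by
  by_cases hs : StrictMono c
  · rw [extL_pos F K _ c ⟨hs, hk⟩, altd_apply]
    refine Finset.sum_congr rfl fun i _ => ?_
    rw [extL_pos F K _ _ ((TPc K).face n i c ⟨hs, hk⟩)]
    rfl
  · rw [extL_neg F K _ c fun h => hs h.1]
    rw [Fin.strictMono_iff_lt_succ] at hs
    push Not at hs
    obtain ⟨j, hj⟩ := hs
    have e : c j.castSucc = c j.succ := by
      by_contra h
      exact hj (lt_of_le_of_ne (hm Fin.castSucc_lt_succ.le) h)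
    rw [Fintype.sum_eq_add j.castSucc j.succ Fin.castSucc_lt_succ.ne]
    · have : c ∘ j.castSucc.succAbove = c ∘ j.succ.succAbove := by
        funext x
        simp only [Function.comp_apply]
        rcases lt_trichotomy x j with h | h | h
        · rw [Fin.succAbove_castSucc_of_lt _ _ h, Fin.succAbove_succ_of_le _ _ h.le]
        · subst h
          rw [Fin.succAbove_castSucc_self, Fin.succAbove_succ_self, e]
        · rw [Fin.succAbove_castSucc_of_le _ _ h.le, Fin.succAbove_succ_of_lt _ _ h]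
      rw [this, Fin.val_succ, Fin.val_castSucc, pow_succ]
      ring
    · intro i ⟨h1, h2⟩
      rw [extL_neg, mul_zero]
      intro h
      obtain ⟨a, ha⟩ := Fin.exists_succAbove_eq (x := j.castSucc) (y := i) h1.symm
      obtain ⟨b, hb⟩ := Fin.exists_succAbove_eq (x := j.succ) (y := i) h2.symm
      have : a = b := h.1.injective (by simp only [Function.comp_apply]; rw [ha, hb, e])
      rw [this, hb] at ha
      exact Fin.castSucc_lt_succ.ne ha.symm

/-- the change of basis -/
noncomputable def Phi (n : ℕ) : ((TPc K).S n → F) →ₗ[F] ((TPc K).S n → F) where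
  toFun f c := alt (fun T => extL F K n f fun i => c.1 i ∪ T) (c.1 0)
  map_add' f g := by
    funext c
    simp only [alt, map_add, Pi.add_apply, smul_add, Finset.sum_add_distrib]
  map_smul' a f := by
    funext c
    simp only [alt, map_smul, Pi.smul_apply, RingHom.id_apply, Finset.smul_sum]
    exact Finset.sum_congr rfl fun T _ => smul_comm _ _ _

theorem Phi_apply {n : ℕ} (f : (TPc K).S n → F) (c : (TPc K).S n) :
    Phi F K n f c = alt (fun T => extL F K n f fun i => c.1 i ∪ T) (c.1 0) := rfl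

/-- the coboundary without the first face -/
def dd (n : ℕ) : ((TPc K).S n → F) →ₗ[F] ((TPc K).S (n + 1) → F) where
  toFun f c := ∑ i : Fin (n + 1), (-1 : F) ^ ((i : ℕ) + 1) * f ((TPc K).fc n i.succ c)
  map_add' f g := by
    funext c
    simp only [Pi.add_apply, mul_add, Finset.sum_add_distrib]
  map_smul' a f := by
    funext c
    simp only [Pi.smul_apply, smul_eq_mul, RingHom.id_apply, Finset.mul_sum]
    exact Finset.sum_congr rfl fun i _ => by ring

theorem dd_apply {n : ℕ} (f : (TPc K).S n → F) (c : (TPc K).S (n + 1)) :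
    dd F K n f c = ∑ i : Fin (n + 1), (-1 : F) ^ ((i : ℕ) + 1) * f ((TPc K).fc n i.succ c) := rfl

variable {K} (hK : ∀ S T, T ⊆ S → K S → K T)

include hK in
theorem dd_Phi (n : ℕ) (f : (TPc K).S n → F) :
    dd F K n (Phi F K n f) = Phi F K (n + 1) ((TPc K).d F n f) := by
  funext c
  rw [dd_apply, Phi_apply]
  have h1 : ∀ T : Finset ι, extL F K (n + 1) ((TPc K).d F n f) (fun i => c.1 i ∪ T) =
      extL F K n f (fun i => c.1 i.succ ∪ T) + ∑ i : Fin (n + 1), (-1 : F) ^ ((i : ℕ) + 1) *
        extL F K n f fun j => ((TPc K).fc n i.succ c).1 j ∪ T := by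
    intro T
    rw [ext_d, Fin.sum_univ_succ]
    · simp only [Fin.val_zero, pow_zero, one_mul, Fin.val_succ]
      rfl
    · intro a b hab
      exact Finset.union_subset_union_left (c.2.1.monotone hab)
    · intro a b
      refine hK _ _ ?_ (c.2.2 a b)
      intro x hx
      simp only [mem_sdiff, mem_union, not_or] at hx ⊢
      exact ⟨hx.1.resolve_right hx.2.2, hx.2.1⟩
  have h2 : alt (fun T => extL F K n f (fun i => c.1 i.succ ∪ T)) (c.1 0) = 0 := by
    obtain ⟨x, hx1, hx0⟩ := Finset.exists_of_ssubset (c.2.1 (by simp : (0 : Fin (n + 2)) < 1))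
    apply alt_eq_zero _ _ x hx0
    intro T
    refine congrArg (extL F K n f) ?_
    funext i
    have : x ∈ c.1 i.succ := c.2.1.monotone (by
      rw [Fin.le_def]; simp) hx1
    rw [Finset.union_insert, Finset.insert_eq_of_mem (Finset.mem_union_left _ this)]
  simp only [h1]
  simp only [alt, smul_add, Finset.sum_add_distrib] at h2 ⊢
  rw [h2, zero_add]
  simp only [Phi_apply, alt, Finset.smul_sum, Finset.mul_sum]
  rw [Finset.sum_comm]
  have h3 : ∀ i : Fin (n + 1), ((TPc K).fc n i.succ c).1 0 = c.1 0 := by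
    intro i; simp [TP.fc]
  rw [Finset.sum_comm]
  conv_rhs => rw [Finset.sum_comm]
  refine Finset.sum_congr rfl fun i _ => ?_
  rw [h3]
  refine Finset.sum_congr rfl fun T _ => ?_
  rw [mul_smul_comm]

theorem Phi_inj (n : ℕ) : Function.Injective (Phi F K n) := by
  rw [injective_iff_map_eq_zero]
  intro f hf
  have : ∀ m, ∀ c : (TPc K).S n, (c.1 0)ᶜ.card = m → f c = 0 := by
    intro m
    induction m using Nat.strong_induction_on with
    | _ m ih =>
    intro c hc
    have h1 := congrFun hf c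
    rw [Phi_apply, alt, Finset.sum_eq_single (c.1 0)] at h1
    · have e : (fun i => c.1 i ∪ c.1 0) = c.1 := by
        funext i
        exact Finset.union_eq_left.2 (c.2.1.monotone (Fin.zero_le i))
      rw [e, extL_pos F K f c.1 c.2, ← two_mul, pow_mul] at h1
      simpa using h1
    · intro T hT hne
      simp only [mem_filter, mem_univ, true_and] at hT
      by_cases h : (TPc K).R n fun i => c.1 i ∪ T
      · rw [extL_pos F K f _ h, ih _ ?_ _ rfl, smul_zero]
        rw [← hc]
        apply Finset.card_lt_card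
        change (c.1 0 ∪ T)ᶜ ⊂ _
        rw [Finset.union_eq_right.2 hT, Finset.compl_ssubset_compl]
        exact lt_of_le_of_ne hT hne.symm
      · rw [extL_neg F K f _ h, smul_zero]
    · intro h; simp at h
  funext c
  exact this _ c rfl

include hK in
theorem z_eq_dd (n : ℕ) : (TPc K).z F n = finrank F (LinearMap.ker (dd F K n)) := by
  let e := LinearEquiv.ofInjectiveEndo (Phi F K n) (Phi_inj F n)
  have : (LinearMap.ker ((TPc K).d F n)).map e.toLinearMap = LinearMap.ker (dd F K n) := by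
    ext g
    obtain ⟨f, rfl⟩ := e.surjective g
    rw [Submodule.mem_map_equiv, e.symm_apply_apply, LinearMap.mem_ker, LinearMap.mem_ker]
    change _ ↔ dd F K n (Phi F K n f) = 0
    rw [dd_Phi F hK, map_eq_zero_iff _ (Phi_inj F (n + 1))]
  rw [← this, LinearEquiv.finrank_map_eq]
  rfl

/-- the full subcomplex on the complement of `U` -/
def XU (U : Finset ι) : PreAbstractSimplicialComplex ι where
  faces := {B | B.Nonempty ∧ K B ∧ Disjoint B U}
  isRelLowerSet_faces := fun _ h => ⟨h.1, fun _ hd hn =>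
    ⟨hn, hK _ _ hd h.2.1, Finset.disjoint_of_subset_left hd h.2.2⟩⟩

/-- from chains of the full subcomplex to simplices of the triangulation -/
def iU (U : Finset ι) (n : ℕ) (b : (chTP (XU hK U)).S n) : (TPc K).S (n + 1) :=
  ⟨Fin.cons U fun i => b.1 i ∪ U, by
    refine ⟨cons_sm _ (fun i j hij => ?_) _ ?_, fun i j => ?_⟩
    · have := b.2.1 hij
      refine ⟨Finset.union_subset_union_left this.1, fun h => this.2 fun x hx => ?_⟩
      rcases Finset.mem_union.1 (h (Finset.mem_union_left _ hx)) with h' | h'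
      · exact h'
      · exact absurd h' (Finset.disjoint_left.1 (b.2.2 j).2.2 hx)
    · refine ⟨Finset.subset_union_right, fun h => ?_⟩
      obtain ⟨x, hx⟩ := (b.2.2 0).1
      exact Finset.disjoint_left.1 (b.2.2 0).2.2 hx (h (Finset.mem_union_left _ hx))
    · have hU : ∀ j, U ⊆ (Fin.cons U fun i => b.1 i ∪ U : Fin (n + 2) → Finset ι) j := by
        intro j
        refine Fin.cases ?_ (fun j => ?_) j
        · simp
        · simp
      refine Fin.cases ?_ (fun i => ?_) i
      · refine hK _ _ ?_ (b.2.2 0).2.1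
        rw [Fin.cons_zero, Finset.sdiff_eq_empty_iff_subset.2 (hU j)]
        exact Finset.empty_subset _
      · refine hK _ _ ?_ (b.2.2 i).2.1
        intro x hx
        rw [Fin.cons_succ, Finset.mem_sdiff, Finset.mem_union] at hx
        exact hx.1.resolve_right fun h => hx.2 (hU j h)⟩

/-- the inverse map -/
def pU (n : ℕ) (c : (TPc K).S (n + 1)) : (chTP (XU hK (c.1 0))).S n :=
  ⟨fun i => c.1 i.succ \ c.1 0, by
    refine ⟨fun i j hij => ?_, fun i => ⟨?_, c.2.2 _ _, Finset.sdiff_disjoint⟩⟩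
    · have := c.2.1 (Fin.succ_lt_succ_iff.2 hij)
      refine ⟨Finset.sdiff_subset_sdiff this.1 subset_rfl, fun h => this.2 fun x hx => ?_⟩
      by_cases h0 : x ∈ c.1 0
      · exact c.2.1.monotone (Fin.zero_le _) h0
      · exact (Finset.mem_sdiff.1 (h (Finset.mem_sdiff.2 ⟨hx, h0⟩))).1
    · obtain ⟨x, h1, h2⟩ := Finset.exists_of_ssubset (c.2.1 (Fin.succ_pos i))
      exact ⟨x, Finset.mem_sdiff.2 ⟨h1, h2⟩⟩⟩

theorem iU_pU (n : ℕ) (c : (TPc K).S (n + 1)) : iU hK (c.1 0) n (pU hK n c) = c := by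
  apply Subtype.ext
  funext i
  refine Fin.cases rfl (fun i => ?_) i
  change c.1 i.succ \ c.1 0 ∪ c.1 0 = _
  exact Finset.sdiff_union_of_subset (c.2.1.monotone (Fin.zero_le _))

theorem pU_iU (U : Finset ι) (n : ℕ) (b : (chTP (XU hK U)).S n) : pU hK n (iU hK U n b) = b := by
  apply Subtype.ext
  funext i
  change (b.1 i ∪ U) \ U = b.1 i
  exact Finset.union_sdiff_cancel_right (b.2.2 i).2.2

theorem fc_iU (U : Finset ι) (n : ℕ) (b : (chTP (XU hK U)).S (n + 1)) (i : Fin (n + 2)) :
    (TPc K).fc (n + 1) i.succ (iU hK U (n + 1) b) = iU hK U n ((chTP (XU hK U)).fc n i b) :=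
  Subtype.ext (TP.cons_succAbove_succ U _ i)

theorem dd_iU (U : Finset ι) (n : ℕ) (f : (TPc K).S (n + 1) → F)
    (b : (chTP (XU hK U)).S (n + 1)) :
    dd F K (n + 1) f (iU hK U (n + 1) b) =
      - (chTP (XU hK U)).d F n (fun a => f (iU hK U n a)) b := by
  rw [dd_apply, altd_apply, ← Finset.sum_neg_distrib]
  refine Finset.sum_congr rfl fun i _ => ?_
  rw [fc_iU, pow_succ]
  ring

theorem z_split (n : ℕ) : (TPc K).z F (n + 1) = ∑ U, (chTP (XU hK U)).z F n := by
  rw [z_eq_dd F hK]
  let Ψ : LinearMap.ker (dd F K (n + 1)) →ₗ[F] (∀ U, LinearMap.ker ((chTP (XU hK U)).d F n)) :=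
    { toFun := fun f U => ⟨fun a => f.1 (iU hK U n a), by
        funext b
        have := congrFun (LinearMap.mem_ker.1 f.2) (iU hK U (n + 1) b)
        rw [dd_iU] at this
        exact neg_eq_zero.1 this⟩
      map_add' := fun _ _ => rfl
      map_smul' := fun _ _ => rfl }
  have hb : Function.Bijective Ψ := by
    constructor
    · rw [injective_iff_map_eq_zero]
      intro f hf
      apply Subtype.ext
      funext c
      rw [← iU_pU hK n c]
      exact congrFun (congrArg Subtype.val (congrFun hf (c.1 0))) (pU hK n c)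
    · intro g
      have key : ∀ U a, (g ((iU hK U n a).1 0)).1 (pU hK n (iU hK U n a)) = (g U).1 a := by
        intro U a
        rw [pU_iU]
        rfl
      refine ⟨⟨fun c => (g (c.1 0)).1 (pU hK n c), ?_⟩, ?_⟩
      · funext c
        rw [← iU_pU hK (n + 1) c, dd_iU]
        simp only [key]
        rw [LinearMap.mem_ker.1 (g (c.1 0)).2]
        simp
      · funext U
        apply Subtype.ext
        funext a
        exact key U a
  rw [(LinearEquiv.ofBijective Ψ hb).finrank_eq, Module.finrank_pi_fintype]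
  rfl

theorem b_split (n : ℕ) :
    (TPc K).b F (n + 2) + Nat.card ((TPc K).S (n + 1)) =
      ∑ U, ((chTP (XU hK U)).b F (n + 1) + Nat.card ((chTP (XU hK U)).S n)) := by
  rw [TP.b_succ, z_split F hK, z_split F hK, ← Finset.sum_add_distrib]
  exact Finset.sum_congr rfl fun U _ => (TP.b_succ F _ n).symm

end

theorem TP.z_congr {P P' : Type} (F : Type) [Field F] (Q : TP P) (Q' : TP P')
    (e : ∀ n, Q.S n ≃ Q'.S n) (he : ∀ n i c, e n (Q.fc n i c) = Q'.fc n i (e (n + 1) c)) (n : ℕ) :
    Q.z F n = Q'.z F n := by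
  let E : ∀ n, (Q'.S n → F) ≃ₗ[F] (Q.S n → F) := fun n => LinearEquiv.funCongrLeft F F (e n)
  have h1 : ∀ f, Q.d F n (E n f) = E (n + 1) (Q'.d F n f) := by
    intro f
    funext c
    change _ = Q'.d F n f (e (n + 1) c)
    rw [altd_apply, altd_apply]
    refine Finset.sum_congr rfl fun i _ => ?_
    rw [← he]; rfl
  have : (LinearMap.ker (Q'.d F n)).map (E n).toLinearMap = LinearMap.ker (Q.d F n) := by
    ext g
    obtain ⟨f, rfl⟩ := (E n).surjective g
    rw [Submodule.mem_map_equiv, (E n).symm_apply_apply, LinearMap.mem_ker, LinearMap.mem_ker, h1,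
      map_eq_zero_iff _ (E (n + 1)).injective]
  rw [TP.z, ← this, LinearEquiv.finrank_map_eq]
  rfl

section
variable {ι : Type} [Fintype ι] [DecidableEq ι]

/-- the coordinatewise order -/
@[reducible] noncomputable def ordE (ι : Type) [Fintype ι] : PartialOrder (EuclideanSpace ℝ ι) :=
  PartialOrder.lift (fun x => (x.ofLp : ι → ℝ)) (WithLp.ofLp_injective 2)

attribute [local instance] ordE

theorem chi_le {A B : Finset ι} : chi A ≤ chi B ↔ A ⊆ B := by
  change (∀ i, chi A i ≤ chi B i) ↔ _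
  simp only [chi_apply]
  constructor
  · intro h i hi
    have := h i
    by_contra h'
    rw [if_pos hi, if_neg h'] at this
    linarith
  · intro h i
    split_ifs with h1 h2
    · exact le_rfl
    · exact absurd (h h1) h2
    · exact zero_le_one
    · exact le_rfl

theorem chi_lt {A B : Finset ι} : chi A < chi B ↔ A < B := by
  rw [lt_iff_le_not_ge, lt_iff_le_not_ge, chi_le, chi_le]

theorem TT_chain (K : Finset ι → Prop) :
    ∀ σ ∈ (TT K).toPreAbstractSimplicialComplex.faces, ∀ u ∈ σ, ∀ v ∈ σ, u ≤ v ∨ v ≤ u := by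
  rintro _ ⟨𝒞, h, rfl⟩ u hu v hv
  obtain ⟨A, hA, rfl⟩ := Finset.mem_map.1 hu
  obtain ⟨B, hB, rfl⟩ := Finset.mem_map.1 hv
  exact (h.2.1 A hA B hB).imp chi_le.2 chi_le.2

theorem b_TT (F : Type) [Field F] (K : Finset ι → Prop) (n : ℕ) :
    (strTP (TT K).toPreAbstractSimplicialComplex).b F (n + 1) = (TPc K).b F (n + 1) := by
  let φ : ∀ n, (TPc K).S n → (strTP (TT K).toPreAbstractSimplicialComplex).S n := fun n c =>
    ⟨fun i => chi (c.1 i), fun i j h => chi_lt.2 (c.2.1 h), (img c.1).map chiE,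
      ⟨img c.1, ⟨⟨_, mem_img.2 ⟨0, rfl⟩⟩, fun A hA B hB => by
        obtain ⟨i, rfl⟩ := mem_img.1 hA
        obtain ⟨j, rfl⟩ := mem_img.1 hB
        exact (le_total i j).imp (fun h => c.2.1.monotone h) fun h => c.2.1.monotone h,
        fun A hA B hB => by
        obtain ⟨i, rfl⟩ := mem_img.1 hA
        obtain ⟨j, rfl⟩ := mem_img.1 hB
        exact c.2.2 i j⟩, rfl⟩, fun i => Finset.mem_map_of_mem chiE (mem_img.2 ⟨i, rfl⟩)⟩
  have hφ : ∀ n, Function.Bijective (φ n) := by
    intro n
    constructor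
    · intro c c' h
      apply Subtype.ext
      funext i
      exact chi_inj (congrFun (congrArg Subtype.val h) i)
    · rintro ⟨s, h1, _, ⟨𝒞, h2, rfl⟩, h3⟩
      have : ∀ i, ∃ A ∈ 𝒞, chi A = s i := fun i => Finset.mem_map.1 (h3 i)
      choose a ha1 ha2 using this
      refine ⟨⟨a, fun i j h => chi_lt.1 ?_, fun i j => h2.2.2 _ (ha1 i) _ (ha1 j)⟩,
        Subtype.ext (funext ha2)⟩
      rw [ha2, ha2]; exact h1 h
  let e := fun n => Equiv.ofBijective _ (hφ n)
  have hz := TP.z_congr F _ _ e fun _ _ _ => rfl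
  have := str_finite (TT K).toPreAbstractSimplicialComplex (TT_finite K)
  have a1 := TP.b_succ F (TPc K) n
  have a2 := TP.b_succ F (strTP (TT K).toPreAbstractSimplicialComplex) n
  rw [← hz, ← hz, ← Nat.card_congr (e n)] at a2
  omega

theorem TT_not_perfect {K : Finset ι → Prop} (hK : ∀ S T, T ⊆ S → K S → K T)
    (h1 : ∀ U, (chTP (XU hK U)).b (ZMod 2) 1 ≤ (chTP (XU hK U)).b (ZMod 3) 1)
    (h2 : ∃ U, (chTP (XU hK U)).b (ZMod 2) 1 < (chTP (XU hK U)).b (ZMod 3) 1) (m : ℕ) :
    ¬ IsPerfect (sd^[m] ⟨_, (TT K).toPreAbstractSimplicialComplex⟩) := by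
  refine not_perfect 1 m _ _ (TT_chain K) (TT_finite K) ?_
  rw [b_TT, b_TT]
  have a1 := b_split (ZMod 2) hK 0
  have a2 := b_split (ZMod 3) hK 0
  obtain ⟨U, hU⟩ := h2
  have a3 : ∑ U, ((chTP (XU hK U)).b (ZMod 2) (0 + 1) + Nat.card ((chTP (XU hK U)).S 0)) <
      ∑ U, ((chTP (XU hK U)).b (ZMod 3) (0 + 1) + Nat.card ((chTP (XU hK U)).S 0)) :=
    Finset.sum_lt_sum (fun U _ => Nat.add_le_add_right (h1 U) _)
      ⟨U, Finset.mem_univ _, Nat.add_lt_add_right hU _⟩
  change (TPc K).b (ZMod 2) (0 + 2) < (TPc K).b (ZMod 3) (0 + 2)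
  omega

end

end Pool.Agent.H937Z.Tight
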