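import Pool.Agent.H937Z.Tight.Bridge

/-! The real moment-angle complex is tight: chain level argument. -/

set_option autoImplicit false

open Pool.Agent.Helper663.Sc Finset

set_option linter.unusedSectionVars false

namespace Pool.Agent.H937Z.Tight

section General
variable {A X Y : Type} [TopologicalSpace A] [TopologicalSpace X] [TopologicalSpace Y]

theorem cpush_sbd (f : C(X, Y)) (n : ℕ) (z : Sing X (n + 1) →₀ ℤ) :
    sbd Y n (cpush f (n + 1) z) = cpush f n (sbd X n z) := by
  have : (sbd Y n).comp (cpush f (n + 1)) = (cpush f n).comp (sbd X n) := by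
    apply Finsupp.lhom_ext'
    intro σ
    apply LinearMap.ext_ring
    simp only [LinearMap.comp_apply, Finsupp.lsingle_apply]
    rw [cpush_single, sbd, sbd, bd_single, bd_single, map_sum]
    refine Finset.sum_congr rfl fun i _ => ?_
    rw [map_smul, cpush_single, sface_comp]
  exact LinearMap.congr_fun this z

theorem cpush_cpush (f : C(A, X)) (g : C(X, Y)) (n : ℕ) (z : Sing A n →₀ ℤ) :
    cpush g n (cpush f n z) = cpush (g.comp f) n z := by
  have : (cpush g n).comp (cpush f n) = cpush (g.comp f) n := by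
    apply Finsupp.lhom_ext'
    intro σ
    apply LinearMap.ext_ring
    simp only [LinearMap.comp_apply, Finsupp.lsingle_apply]
    rw [cpush_single, cpush_single, cpush_single, ContinuousMap.comp_assoc]
  exact LinearMap.congr_fun this z

theorem cpush_id (n : ℕ) (z : Sing A n →₀ ℤ) : cpush (ContinuousMap.id A) n z = z := by
  have : cpush (ContinuousMap.id A) n = LinearMap.id := by
    apply Finsupp.lhom_ext'
    intro σ
    apply LinearMap.ext_ring
    simp only [LinearMap.comp_apply, Finsupp.lsingle_apply, LinearMap.id_apply]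
    rw [cpush_single, ContinuousMap.id_comp]
  rw [this]; rfl

theorem grp_aux {G : Type} [AddCommGroup G] {a b c d e f : G} (h1 : a - b - c = 0)
    (h2 : d + e = a - f) : 0 - f = d - b + (e - c) := by
  have h3 : f = a - (d + e) := by rw [h2]; abel
  have h4 : a = b + c := by rw [← sub_eq_zero, ← h1]; abel
  rw [h3, h4]; abel

/-- `φ` factors through `f` up to chain homotopy. -/
def Good (f : C(A, X)) (φ : ∀ n, (Sing A n →₀ ℤ) →ₗ[ℤ] (Sing A n →₀ ℤ)) : Prop :=
  ∃ (ρ : ∀ n, (Sing X n →₀ ℤ) →ₗ[ℤ] (Sing A n →₀ ℤ))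
    (h : ∀ n, (Sing A n →₀ ℤ) →ₗ[ℤ] (Sing A (n + 1) →₀ ℤ)),
    (∀ n z, sbd A n (ρ (n + 1) z) = ρ n (sbd X n z)) ∧
    (∀ z, ρ 0 (cpush f 0 z) - φ 0 z = sbd A 0 (h 0 z)) ∧
    (∀ n z, ρ (n + 1) (cpush f (n + 1) z) - φ (n + 1) z =
      sbd A (n + 1) (h (n + 1) z) + h n (sbd A n z))

theorem retr_of_sum {β : Type} [Fintype β] (f : C(A, X))
    (φ : β → ∀ n, (Sing A n →₀ ℤ) →ₗ[ℤ] (Sing A n →₀ ℤ)) (hφ : ∀ b, Good f (φ b))
    (hs : ∀ n z, ∑ b, φ b n z = z) : Retr f := by
  choose ρ h h1 h2 h3 using hφ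
  refine ⟨fun n => ∑ b, ρ b n, fun n => ∑ b, h b n, ?_, ?_, ?_⟩
  · intro n z
    simp only [LinearMap.sum_apply, map_sum, h1]
  · intro z
    simp only [LinearMap.sum_apply, map_sum, ← h2, Finset.sum_sub_distrib, hs]
  · intro n z
    simp only [LinearMap.sum_apply, map_sum, ← Finset.sum_add_distrib, ← h3,
      Finset.sum_sub_distrib, hs]

theorem Retr.transfer {A' X' : Type} [TopologicalSpace A'] [TopologicalSpace X']
    {f : C(A, X)} {f' : C(A', X')} (hf : Retr f') (α : C(A, A')) (α' : C(A', A)) (β : C(X, X'))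
    (h1 : α'.comp α = ContinuousMap.id A) (h2 : β.comp f = f'.comp α) : Retr f := by
  obtain ⟨ρ, h, k1, k2, k3⟩ := hf
  refine ⟨fun n => (cpush α' n).comp ((ρ n).comp (cpush β n)),
    fun n => (cpush α' (n + 1)).comp ((h n).comp (cpush α n)), ?_, ?_, ?_⟩
  · intro n z
    simp only [LinearMap.comp_apply]
    rw [cpush_sbd, k1, cpush_sbd]
  · intro z
    simp only [LinearMap.comp_apply]
    rw [cpush_sbd, ← k2, map_sub, cpush_cpush f β, h2, cpush_cpush α f', cpush_cpush α α', h1,
      cpush_id]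
  · intro n z
    simp only [LinearMap.comp_apply]
    rw [cpush_sbd, ← cpush_sbd α, ← map_add, ← k3, map_sub, cpush_cpush f β, h2,
      cpush_cpush α f', cpush_cpush α α', h1, cpush_id]

end General

section Mobius
variable {ι : Type} [Fintype ι] [DecidableEq ι] {G : Type} [AddCommGroup G]

/-- the alternating sum over supersets -/
def alt (F : Finset ι → G) (U : Finset ι) : G :=
  ∑ T ∈ univ.filter (fun T => U ⊆ T), ((-1 : ℤ) ^ (T.card + U.card)) • F T

theorem sum_alt_eq (F : Finset ι → G) : ∑ U, alt F U = F ∅ := by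
  unfold alt
  have : ∀ U : Finset ι, ∑ T ∈ univ.filter (fun T => U ⊆ T), ((-1 : ℤ) ^ (T.card + U.card)) • F T
      = ∑ T, if U ⊆ T then ((-1 : ℤ) ^ (T.card + U.card)) • F T else 0 := by
    intro U; rw [Finset.sum_filter]
  simp only [this]
  rw [Finset.sum_comm]
  have h2 : ∀ T : Finset ι, (∑ U, if U ⊆ T then ((-1 : ℤ) ^ (T.card + U.card)) • F T else 0) =
      if T = ∅ then F T else 0 := by
    intro T
    rw [← Finset.sum_filter, ← Finset.sum_smul]
    have : univ.filter (fun U => U ⊆ T) = T.powerset := by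
      ext U; simp
    rw [this]
    simp only [pow_add, ← Finset.mul_sum]
    rw [Finset.sum_powerset_neg_one_pow_card]
    split_ifs with h
    · subst h; simp
    · simp
  simp only [h2]
  simp

theorem alt_eq_zero (F : Finset ι → G) (U : Finset ι) (i : ι) (hi : i ∉ U)
    (hF : ∀ T, F (insert i T) = F T) : alt F U = 0 := by
  unfold alt
  apply Finset.sum_involution (fun T _ => if i ∈ T then T.erase i else insert i T)
  · intro T _
    by_cases h : i ∈ T
    · simp only [if_pos h]
      have e : F T = F (T.erase i) := by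
        rw [← hF (T.erase i), Finset.insert_erase h]
      have c : T.card = (T.erase i).card + 1 := by
        rw [Finset.card_erase_add_one h]
      rw [e, c, ← add_smul]
      have : (-1 : ℤ) ^ ((T.erase i).card + 1 + U.card) + (-1) ^ ((T.erase i).card + U.card) = 0 := by
        ring
      rw [this, zero_smul]
    · simp only [if_neg h]
      rw [hF, Finset.card_insert_of_notMem h, ← add_smul]
      have : (-1 : ℤ) ^ (T.card + U.card) + (-1) ^ (T.card + 1 + U.card) = 0 := by ring
      rw [this, zero_smul]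
  · intro T _ _
    by_cases h : i ∈ T
    · simp only [if_pos h]
      intro e
      have : i ∈ T.erase i := by rw [e]; exact h
      simp at this
    · simp only [if_neg h]
      intro e
      exact h (e ▸ Finset.mem_insert_self i T)
  · intro T _
    by_cases h : i ∈ T
    · simp [h]
    · simp [h]
  · intro T hT
    simp only [Finset.mem_filter, Finset.mem_univ, true_and] at hT ⊢
    by_cases h : i ∈ T
    · simp only [if_pos h]
      intro x hx
      exact Finset.mem_erase.2 ⟨fun e => hi (e ▸ hx), hT hx⟩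
    · simp only [if_neg h]
      exact hT.trans (Finset.subset_insert _ _)

end Mobius

section Moment
variable {ι : Type} [Fintype ι] [DecidableEq ι]

open Classical in
/-- the set of fractional coordinates -/
noncomputable def frac (x : ι → ℝ) : Finset ι := univ.filter fun i => 0 < x i ∧ x i < 1

theorem mem_frac {x : ι → ℝ} {i : ι} : i ∈ frac x ↔ 0 < x i ∧ x i < 1 := by
  simp [frac]

/-- the real moment-angle complex -/
def MM (K : Finset ι → Prop) : Set (ι → ℝ) := {x | (∀ i, 0 ≤ x i ∧ x i ≤ 1) ∧ K (frac x)}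

/-- the part in a halfspace -/
def AA (K : Finset ι → Prop) (π : ι → ℝ) (t : ℝ) : Set (ι → ℝ) :=
  {x | x ∈ MM K ∧ t ≤ ∑ i, π i * x i}

variable {K : Finset ι → Prop} (hK : ∀ S T, T ⊆ S → K S → K T)
include hK

theorem up_mem {x y : ι → ℝ} (hx : x ∈ MM K) (h1 : ∀ i, x i ≤ y i) (h2 : ∀ i, y i ≤ 1)
    (h3 : ∀ i, x i = 0 → y i = 0 ∨ y i = 1) : y ∈ MM K := by
  refine ⟨fun i => ⟨(hx.1 i).1.trans (h1 i), h2 i⟩, hK _ _ ?_ hx.2⟩
  intro i hi
  rw [mem_frac] at hi ⊢
  refine ⟨lt_of_le_of_ne (hx.1 i).1 fun e => ?_, (h1 i).trans_lt hi.2⟩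
  rcases h3 i e.symm with h | h
  · exact absurd h hi.1.ne'
  · exact absurd h hi.2.ne

theorem up_memA {π : ι → ℝ} (hπ : ∀ i, 0 ≤ π i) {t : ℝ} {x y : ι → ℝ} (hx : x ∈ AA K π t)
    (h1 : ∀ i, x i ≤ y i) (h2 : ∀ i, y i ≤ 1) (h3 : ∀ i, x i = 0 → y i = 0 ∨ y i = 1) :
    y ∈ AA K π t :=
  ⟨up_mem hK hx.1 h1 h2 h3, hx.2.trans (Finset.sum_le_sum fun i _ =>
    mul_le_mul_of_nonneg_left (h1 i) (hπ i))⟩

omit hK in
/-- raise the coordinates in `T` to `1` -/
def PP (T : Finset ι) (x : ι → ℝ) : ι → ℝ := fun i => if i ∈ T then 1 else x i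

omit hK in
theorem continuous_PP (T : Finset ι) : Continuous (PP T) := by
  refine continuous_pi fun i => ?_
  unfold PP
  split_ifs
  · exact continuous_const
  · exact continuous_apply i

omit hK in
theorem PP_le {x : ι → ℝ} (hx : x ∈ MM K) (T : Finset ι) :
    (∀ i, x i ≤ PP T x i) ∧ (∀ i, PP T x i ≤ 1) ∧ ∀ i, x i = 0 → PP T x i = 0 ∨ PP T x i = 1 := by
  refine ⟨fun i => ?_, fun i => ?_, fun i h => ?_⟩ <;> unfold PP <;> split_ifs
  · exact (hx.1 i).2
  · exact le_rfl
  · exact le_rfl
  · exact (hx.1 i).2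
  · exact Or.inr rfl
  · exact Or.inl h

variable {π : ι → ℝ} (hπ : ∀ i, 0 ≤ π i) (t : ℝ)

/-- `PP` on the part in the halfspace -/
def PA (T : Finset ι) : C(AA K π t, AA K π t) :=
  ⟨fun x => ⟨PP T x.1, up_memA hK hπ x.2 (PP_le x.2.1 T).1 (PP_le x.2.1 T).2.1
    (PP_le x.2.1 T).2.2⟩, ((continuous_PP T).comp continuous_subtype_val).subtype_mk _⟩

/-- `PP` from the complex to the part in the halfspace -/
def PMA (U : Finset ι) (hU : t ≤ ∑ i ∈ U, π i) (T : Finset ι) : C(MM K, AA K π t) :=
  ⟨fun x => ⟨PP (T ∪ U) x.1, up_mem hK x.2 (PP_le x.2 _).1 (PP_le x.2 _).2.1 (PP_le x.2 _).2.2, by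
      refine hU.trans ?_
      rw [← Finset.sum_filter_add_sum_filter_not univ (fun i => i ∈ U)]
      have e : univ.filter (fun i => i ∈ U) = U := by ext i; simp
      rw [e]
      have h1 : ∑ i ∈ U, π i * PP (T ∪ U) x.1 i = ∑ i ∈ U, π i :=
        Finset.sum_congr rfl fun i hi => by simp [PP, hi]
      have h2 : 0 ≤ ∑ i ∈ univ.filter (fun i => ¬ i ∈ U), π i * PP (T ∪ U) x.1 i :=
        Finset.sum_nonneg fun i _ => mul_nonneg (hπ i)
          ((x.2.1 i).1.trans ((PP_le x.2 _).1 i))
      linarith⟩,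
    ((continuous_PP _).comp continuous_subtype_val).subtype_mk _⟩

omit hK in
/-- the inclusion -/
def incA : C(AA K π t, MM K) :=
  ⟨fun x => ⟨x.1, x.2.1⟩, continuous_subtype_val.subtype_mk _⟩

/-- the projector attached to `U` -/
noncomputable def EE (U : Finset ι) (n : ℕ) :
    (Sing (AA K π t) n →₀ ℤ) →ₗ[ℤ] (Sing (AA K π t) n →₀ ℤ) :=
  alt (fun T => cpush (PA hK hπ t T) n) U

theorem EE_apply (U : Finset ι) (n : ℕ) (z : Sing (AA K π t) n →₀ ℤ) :
    EE hK hπ t U n z = alt (fun T => cpush (PA hK hπ t T) n z) U := by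
  simp only [EE, alt, LinearMap.sum_apply, LinearMap.smul_apply]

theorem EE_sbd (U : Finset ι) (n : ℕ) (z : Sing (AA K π t) (n + 1) →₀ ℤ) :
    sbd _ n (EE hK hπ t U (n + 1) z) = EE hK hπ t U n (sbd _ n z) := by
  simp only [EE_apply, alt, map_sum, map_smul, cpush_sbd]

theorem good_top (U : Finset ι) (hU : t ≤ ∑ i ∈ U, π i) :
    Good (incA (K := K) (π := π) t) (EE hK hπ t U) := by
  have key : ∀ n z, alt (fun T => cpush (PMA hK hπ t U hU T) n) U
      (cpush (incA (K := K) (π := π) t) n z) = EE hK hπ t U n z := by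
    intro n z
    simp only [EE_apply, alt, LinearMap.sum_apply, LinearMap.smul_apply]
    refine Finset.sum_congr rfl fun T hT => ?_
    rw [cpush_cpush]
    congr 3
    simp only [Finset.mem_filter, Finset.mem_univ, true_and] at hT
    ext x i
    change PP (T ∪ U) x.1 i = PP T x.1 i
    rw [Finset.union_eq_left.2 hT]
  refine ⟨fun n => alt (fun T => cpush (PMA hK hπ t U hU T) n) U, fun _ => 0, ?_, ?_, ?_⟩
  · intro n z
    simp only [alt, LinearMap.sum_apply, LinearMap.smul_apply, map_sum, map_smul, cpush_sbd]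
  · intro z
    rw [key]; simp
  · intro n z
    rw [key]; simp

omit hK in
/-- the mass outside `U` -/
def mass (U : Finset ι) (x : ι → ℝ) : ℝ := ∑ i ∈ Uᶜ, x i

omit hK in
include hπ in
theorem mass_pos {U : Finset ι} (hU : ∑ i ∈ U, π i < t) {x : ι → ℝ} (hx : x ∈ AA K π t) :
    0 < mass U x := by
  have h0 : ∀ i ∈ Uᶜ, 0 ≤ x i := fun i _ => (hx.1.1 i).1
  refine lt_of_le_of_ne (Finset.sum_nonneg h0) fun e => ?_
  have h1 := (Finset.sum_eq_zero_iff_of_nonneg h0).1 e.symm
  have h2 := hx.2
  rw [← Finset.sum_add_sum_compl U] at h2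
  have h3 : ∑ i ∈ Uᶜ, π i * x i = 0 := Finset.sum_eq_zero fun i hi => by rw [h1 i hi, mul_zero]
  have h4 : ∑ i ∈ U, π i * x i ≤ ∑ i ∈ U, π i := Finset.sum_le_sum fun i _ =>
    mul_le_of_le_one_right (hπ i) (hx.1.1 i).2
  linarith

omit hK in
theorem mass_le (U : Finset ι) {x : ι → ℝ} (hx : x ∈ MM K) :
    mass U x ≤ Fintype.card ι := by
  calc mass U x ≤ ∑ _i ∈ Uᶜ, (1 : ℝ) := Finset.sum_le_sum fun i _ => (hx.1 i).2
    _ = (Uᶜ.card : ℝ) := by simp
    _ ≤ _ := by exact_mod_cast Finset.card_le_univ _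

omit hK in
/-- the radial homotopy -/
noncomputable def HH (U : Finset ι) (x : ι → ℝ) (s : ℝ) : ι → ℝ := fun i =>
  if i ∈ U then 1 else min 1 (x i * (1 + s * ((Fintype.card ι + 1) / mass U x - 1)))

/-- the radial homotopy as a continuous map -/
noncomputable def HA {U : Finset ι} (hU : ∑ i ∈ U, π i < t) :
    C(AA K π t × unitInterval, AA K π t) :=
  ⟨fun p => ⟨HH U p.1.1 p.2.1, by
      have hm := mass_pos hπ t hU p.1.2
      have hm2 := mass_le U p.1.2.1
      have hl : 1 ≤ ((Fintype.card ι : ℝ) + 1) / mass U p.1.1 := by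
        rw [le_div_iff₀ hm]; linarith
      have hs := p.2.2.1
      refine up_memA hK hπ p.1.2 (fun i => ?_) (fun i => ?_) (fun i h => ?_) <;> unfold HH <;>
        split_ifs
      · exact (p.1.2.1.1 i).2
      · refine le_min (p.1.2.1.1 i).2 (le_mul_of_one_le_right (p.1.2.1.1 i).1 ?_)
        have := mul_nonneg hs (sub_nonneg.2 hl)
        linarith
      · exact le_rfl
      · exact min_le_left _ _
      · exact Or.inr rfl
      · left; rw [h]; simp⟩, by
    refine Continuous.subtype_mk (continuous_pi fun i => ?_) _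
    unfold HH
    split_ifs
    · exact continuous_const
    · have c1 : ∀ j, Continuous fun p : AA K π t × unitInterval => p.1.1 j := fun j =>
        (continuous_apply j).comp (continuous_subtype_val.comp continuous_fst)
      have c2 : Continuous fun p : AA K π t × unitInterval => mass U p.1.1 :=
        continuous_finsetSum _ fun j _ => c1 j
      have c3 : Continuous fun p : AA K π t × unitInterval => (p.2.1 : ℝ) :=
        continuous_subtype_val.comp continuous_snd
      refine continuous_const.min ((c1 i).mul (continuous_const.add (c3.mul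
        ((continuous_const.div c2 fun p => (mass_pos hπ t hU p.1.2).ne').sub continuous_const))))⟩

theorem good_bot (U : Finset ι) (hU : ∑ i ∈ U, π i < t) :
    Good (incA (K := K) (π := π) t) (EE hK hπ t U) := by
  let H := HA hK hπ t hU
  let g := slice H 1
  let 𝒞 : Set (Set (AA K π t)) :=
    {V | ∃ i, i ∉ U ∧ V = {x | mass U x.1 < (Fintype.card ι + 1) * x.1 i}}
  have hopen : ∀ C ∈ 𝒞, IsOpen C := by
    rintro _ ⟨i, -, rfl⟩
    have c1 : ∀ j, Continuous fun p : AA K π t => p.1 j := fun j =>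
      (continuous_apply j).comp continuous_subtype_val
    exact isOpen_lt (continuous_finsetSum _ fun j _ => c1 j) (continuous_const.mul (c1 i))
  have hcov : ∀ x : AA K π t, ∃ C ∈ 𝒞, x ∈ C := by
    intro x
    have hm := mass_pos hπ t hU x.2
    by_contra hc
    push Not at hc
    have h1 : ∀ i ∈ Uᶜ, ((Fintype.card ι : ℝ) + 1) * x.1 i ≤ mass U x.1 := by
      intro i hi
      have := hc _ ⟨i, Finset.mem_compl.1 hi, rfl⟩
      simpa using this
    have h2 := Finset.sum_le_sum h1
    rw [← Finset.mul_sum, Finset.sum_const, nsmul_eq_mul] at h2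
    have h3 : ((Uᶜ.card : ℕ) : ℝ) ≤ Fintype.card ι := by exact_mod_cast Finset.card_le_univ _
    change ((Fintype.card ι : ℝ) + 1) * mass U x.1 ≤ _ at h2
    nlinarith
  have h0 : slice H 0 = PA hK hπ t U := by
    ext x i
    change HH U x.1 0 i = PP U x.1 i
    unfold HH PP
    split_ifs
    · rfl
    · simp [(x.2.1.1 i).2]
  have hE : ∀ n z, EE hK hπ t U n (cpush (PA hK hπ t U) n z) = EE hK hπ t U n z := by
    intro n z
    simp only [EE_apply, alt]
    refine Finset.sum_congr rfl fun T hT => ?_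
    rw [cpush_cpush]
    congr 3
    simp only [Finset.mem_filter, Finset.mem_univ, true_and] at hT
    ext x i
    change PP T (PP U x.1) i = PP T x.1 i
    unfold PP
    by_cases h : i ∈ T
    · simp [h]
    · have : i ∉ U := fun h' => h (hT h')
      simp [h, this]
  have hv : ∀ n z, z ∈ Finsupp.supported ℤ ℤ (smallSet 𝒞 n) →
      EE hK hπ t U n (cpush g n z) = 0 := by
    intro n z hz
    have := supported_map (smallSet 𝒞 n) ((EE hK hπ t U n).comp (cpush g n)) ⊥ ?_ z hz
    · simpa using this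
    rintro σ ⟨_, ⟨i, hi, rfl⟩, hσ⟩
    rw [Submodule.mem_bot, LinearMap.comp_apply, EE_apply]
    apply alt_eq_zero _ _ i hi
    intro T
    rw [cpush_single, cpush_single, cpush_single]
    congr 1
    ext y j
    change PP (insert i T) (HH U (σ y).1 1) j = PP T (HH U (σ y).1 1) j
    unfold PP
    by_cases h : j ∈ T
    · simp [h]
    · by_cases e : j = i
      · subst e
        have hm := mass_pos hπ t hU (σ y).2
        have h1 : mass U (σ y).1 < (Fintype.card ι + 1) * (σ y).1 j := hσ ⟨y, rfl⟩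
        have h2 : 1 ≤ (σ y).1 j * (1 + 1 * ((Fintype.card ι + 1) / mass U (σ y).1 - 1)) := by
          have : (σ y).1 j * (1 + 1 * ((Fintype.card ι + 1) / mass U (σ y).1 - 1)) =
              ((Fintype.card ι + 1) * (σ y).1 j) / mass U (σ y).1 := by ring
          rw [this, le_div_iff₀ hm]; linarith
        simp only [Finset.mem_insert_self, if_true, if_neg h, HH, if_neg hi]
        exact (min_eq_left h2).symm
      · simp [h, e]
  refine ⟨fun _ => 0, fun n => (EE hK hπ t U (n + 1)).comp (PD H n) -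
    (EE hK hπ t U (n + 1)).comp ((cpush g (n + 1)).comp (DD 𝒞 n)), ?_, ?_, ?_⟩
  · intro n z; simp
  · intro z
    have a1 := hv 0 _ (rho_small 𝒞 hopen hcov 0 z)
    change EE hK hπ t U 0 (cpush g 0 z) = 0 at a1
    simp only [LinearMap.zero_apply, LinearMap.sub_apply, LinearMap.comp_apply, DD_zero, map_zero,
      sub_zero]
    rw [EE_sbd, sbd_PD_zero, map_sub, h0, hE, a1]
  · intro n z
    have a1 := hv (n + 1) _ (rho_small 𝒞 hopen hcov (n + 1) z)
    rw [rho_succ, map_sub, map_sub, map_sub, map_sub] at a1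
    have a2 := congrArg (EE hK hπ t U (n + 1)) (sbd_PD H n z)
    rw [map_add, map_sub, h0, hE] at a2
    simp only [LinearMap.zero_apply, LinearMap.sub_apply, LinearMap.comp_apply, map_sub]
    rw [EE_sbd, EE_sbd, cpush_sbd]
    have a3 : EE hK hπ t U (n + 1) (cpush g (n + 1) z) =
        EE hK hπ t U (n + 1) (cpush (slice H 1) (n + 1) z) := rfl
    rw [← a3] at a2
    exact grp_aux a1 a2

include hπ in
theorem retr_incA : Retr (incA (K := K) (π := π) t) := by
  apply retr_of_sum _ (EE hK hπ t)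
  · intro U
    rcases le_or_gt t (∑ i ∈ U, π i) with h | h
    · exact good_top hK hπ t U h
    · exact good_bot hK hπ t U h
  · intro n z
    simp only [EE_apply]
    rw [sum_alt_eq]
    have : PA hK hπ t ∅ = ContinuousMap.id _ := by
      ext x i
      change PP ∅ x.1 i = x.1 i
      simp [PP]
    rw [this, cpush_id]

end Moment

end Pool.Agent.H937Z.Tight
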